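import Mathlib

/-! Reverse Golod-Shafarevich inequality, part A (joined modules). -/

section S_Defs

/-!
Reverse Golod-Shafarevich inequality for groups with finite elementary abelian p-sections
(MP_7644f1_al, partial result; paper proof by helper43, /team-store/H43_GSNOETH.md).
Definitions.
-/

set_option autoImplicit false

namespace Pool.Agent.H93.GS

/-- right translation `(Rt h f) x = f (x h)` -/
def Rt (p : ℕ) {H : Type} [Group H] (h : H) : (H → ZMod p) →ₗ[ZMod p] (H → ZMod p) :=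
  LinearMap.funLeft (ZMod p) (ZMod p) (fun x => x * h)

/-- left translation `(Lt h f) x = f (h x)` -/
def Lt (p : ℕ) {H : Type} [Group H] (h : H) : (H → ZMod p) →ₗ[ZMod p] (H → ZMod p) :=
  LinearMap.funLeft (ZMod p) (ZMod p) (fun x => h * x)

/-- right difference `(Dr h f) x = f (x h) - f x` -/
def Dr (p : ℕ) {H : Type} [Group H] (h : H) : (H → ZMod p) →ₗ[ZMod p] (H → ZMod p) :=
  Rt p h - LinearMap.id

/-- left difference `(El h f) x = f (h x) - f x` -/
def El (p : ℕ) {H : Type} [Group H] (h : H) : (H → ZMod p) →ₗ[ZMod p] (H → ZMod p) :=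
  Lt p h - LinearMap.id

/-- functions that do not change when a factor `s ∈ S` is deleted -/
def Inv (p : ℕ) {H : Type} [Group H] (S : Set H) : Submodule (ZMod p) (H → ZMod p) where
  carrier := {f | ∀ s ∈ S, ∀ x y : H, f (x * s * y) = f (x * y)}
  add_mem' := by
    intro a b ha hb s hs x y
    simp only [Pi.add_apply]
    rw [ha s hs x y, hb s hs x y]
  zero_mem' := by
    intro s _ x y
    rfl
  smul_mem' := by
    intro c a ha s hs x y
    simp only [Pi.smul_apply]
    rw [ha s hs x y]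

/-- the functions on `H / ⟨⟨S⟩⟩` of degree `< k` -/
def V (p : ℕ) {H : Type} [Group H] (S : Set H) : ℕ → Submodule (ZMod p) (H → ZMod p)
  | 0 => ⊥
  | k + 1 => Inv p S ⊓ ⨅ h : H, (V p S k).comap (Dr p h)

/-- dimension of `V p S k` -/
noncomputable def cc (p : ℕ) {H : Type} [Group H] (S : Set H) (k : ℕ) : ℕ :=
  Module.finrank (ZMod p) (V p S k)

lemma Rt_apply (p : ℕ) {H : Type} [Group H] (h : H) (f : H → ZMod p) (x : H) :
    Rt p h f x = f (x * h) := rfl

lemma Lt_apply (p : ℕ) {H : Type} [Group H] (h : H) (f : H → ZMod p) (x : H) :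
    Lt p h f x = f (h * x) := rfl

lemma Dr_apply (p : ℕ) {H : Type} [Group H] (h : H) (f : H → ZMod p) (x : H) :
    Dr p h f x = f (x * h) - f x := rfl

lemma El_apply (p : ℕ) {H : Type} [Group H] (h : H) (f : H → ZMod p) (x : H) :
    El p h f x = f (h * x) - f x := rfl

lemma Rt_mul (p : ℕ) {H : Type} [Group H] (g h : H) (f : H → ZMod p) :
    Rt p (g * h) f = Rt p g (Rt p h f) := by
  funext x
  simp only [Rt_apply, mul_assoc]

lemma mem_V_zero (p : ℕ) {H : Type} [Group H] (S : Set H) (f : H → ZMod p) :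
    f ∈ V p S 0 ↔ f = 0 := by
  simp [V]

lemma mem_V_succ (p : ℕ) {H : Type} [Group H] (S : Set H) (k : ℕ) (f : H → ZMod p) :
    f ∈ V p S (k + 1) ↔ f ∈ Inv p S ∧ ∀ h : H, Dr p h f ∈ V p S k := by
  simp [V, Submodule.mem_iInf]

lemma mem_Inv (p : ℕ) {H : Type} [Group H] (S : Set H) (f : H → ZMod p) :
    f ∈ Inv p S ↔ ∀ s ∈ S, ∀ x y : H, f (x * s * y) = f (x * y) := Iff.rfl

lemma Dr_eq_zero (p : ℕ) {H : Type} [Group H] (h : H) (f : H → ZMod p) :
    Dr p h f = 0 ↔ Rt p h f = f := by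
  simp [Dr, sub_eq_zero]

/-- the elements that act trivially (by right translation) on `V p S k` -/
def Nk (p : ℕ) {H : Type} [Group H] (S : Set H) (k : ℕ) : Subgroup H where
  carrier := {g | ∀ f ∈ V p S k, Rt p g f = f}
  mul_mem' := by
    intro a b ha hb f hf
    rw [Rt_mul, hb f hf, ha f hf]
  one_mem' := by
    intro f _
    funext x
    simp [Rt_apply]
  inv_mem' := by
    intro a ha f hf
    have h := ha f hf
    calc Rt p a⁻¹ f = Rt p a⁻¹ (Rt p a f) := by rw [h]
      _ = Rt p (a⁻¹ * a) f := by rw [Rt_mul]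
      _ = f := by
        funext x
        simp [Rt_apply]

lemma mem_Nk (p : ℕ) {H : Type} [Group H] (S : Set H) (k : ℕ) (g : H) :
    g ∈ Nk p S k ↔ ∀ f ∈ V p S k, Rt p g f = f := Iff.rfl

/-- crossed homomorphisms -/
def Z1 (p : ℕ) {H : Type} [Group H] {M : Type} [AddCommGroup M] [Module (ZMod p) M]
    (ρ : Representation (ZMod p) H M) : Submodule (ZMod p) (H → M) where
  carrier := {δ | ∀ g h : H, δ (g * h) = δ g + ρ g (δ h)}
  add_mem' := by
    intro a b ha hb g h
    simp only [Pi.add_apply, map_add]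
    rw [ha g h, hb g h]
    abel
  zero_mem' := by
    intro g h
    simp
  smul_mem' := by
    intro c a ha g h
    simp only [Pi.smul_apply, map_smul]
    rw [ha g h, smul_add]

lemma mem_Z1 (p : ℕ) {H : Type} [Group H] {M : Type} [AddCommGroup M] [Module (ZMod p) M]
    (ρ : Representation (ZMod p) H M) (δ : H → M) :
    δ ∈ Z1 p ρ ↔ ∀ g h : H, δ (g * h) = δ g + ρ g (δ h) := Iff.rfl

/-- Golod-Shafarevich datum `(d, r)` of `H` at `p` -/
def GSD (p : ℕ) (H : Type) [Group H] (d r : ℤ) : Prop :=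
  ∀ (M : Type) [AddCommGroup M] [Module (ZMod p) M] [Module.Finite (ZMod p) M]
    (ρ : Representation (ZMod p) H M) (M' : Submodule (ZMod p) M),
    (∀ g : H, ∀ v ∈ M', ρ g v ∈ M') → (∀ (g : H) (v : M), ρ g v - v ∈ M') →
      d * (Module.finrank (ZMod p) M : ℤ) - r * (Module.finrank (ZMod p) M' : ℤ) ≤
        (Module.finrank (ZMod p) (Z1 p ρ) : ℤ)

/-- the set of relators of a list of relators with depths -/
def rs {H : Type} (S : List (H × ℕ)) : Set H := {x | ∃ a, (x, a) ∈ S}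

/-- all depths are right -/
def Dp (p : ℕ) {H : Type} [Group H] (S : List (H × ℕ)) : Prop :=
  ∀ q ∈ S, 1 ≤ q.2 ∧ q.1 ∈ Nk p (∅ : Set H) q.2

/-- all elementary abelian `p`-sections `K / L` are finite -/
def FiniteSections (p : ℕ) (G : Type) [Group G] : Prop :=
  ∀ K L : Subgroup G, L ≤ K → (∀ x ∈ K, x ^ p ∈ L) →
    (∀ x ∈ K, ∀ y ∈ K, x * y * x⁻¹ * y⁻¹ ∈ L) → L.relIndex K ≠ 0

end Pool.Agent.H93.GS

end S_Defs

section S_VA

/-!
ROW VA (60 lines).  First properties of `V p S k` (defined in Defs; use `mem_V_zero`, `mem_V_succ`, `mem_Inv`, `Dr_apply`).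
* `V_mono` by induction on `k` (`k = 0`: `V p S 0 = ⊥`; step: `Dr p h f ∈ V p S k ≤ V p S (k+1)`).  `V_le` : `Nat.le_induction` or `monotone_nat_of_le_succ`.
* `V_anti` by induction on `k` (`Inv p S' ≤ Inv p S` for `S ⊆ S'`).
* `const_mem`: constants are in `Inv p S`, and `Dr p h` kills them.
* `V_one`: `f ∈ V p S 1` iff `f ∈ Inv p S` and all `Dr p h f = 0`, i.e. `f (x h) = f x`, take `x = 1`.
* `cc_zero`: `finrank_bot`.  `cc_one`: `V p S 1` is spanned by the constant function `1` (`finrank_span_singleton`, or the equivalence with `ZMod p`).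
-/

set_option autoImplicit false

namespace Pool.Agent.H93.GS

theorem V_mono (p : ℕ) {H : Type} [Group H] (S : Set H) (k : ℕ) : V p S k ≤ V p S (k + 1) := by
  induction k with
  | zero =>
    intro f hf
    rw [mem_V_zero] at hf
    subst hf
    exact Submodule.zero_mem _
  | succ k ih =>
    intro f hf
    rw [mem_V_succ] at hf
    rw [mem_V_succ]
    exact ⟨hf.1, fun h => ih (hf.2 h)⟩

theorem V_le (p : ℕ) {H : Type} [Group H] (S : Set H) {j k : ℕ} (h : j ≤ k) :
    V p S j ≤ V p S k :=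
  monotone_nat_of_le_succ (V_mono p S) h

theorem V_anti (p : ℕ) {H : Type} [Group H] {S S' : Set H} (h : S ⊆ S') (k : ℕ) :
    V p S' k ≤ V p S k := by
  induction k with
  | zero =>
    intro f hf
    rw [mem_V_zero] at hf
    subst hf
    exact Submodule.zero_mem _
  | succ k ih =>
    intro f hf
    rw [mem_V_succ] at hf
    rw [mem_V_succ]
    exact ⟨fun s hs x y => hf.1 s (h hs) x y, fun g => ih (hf.2 g)⟩

theorem V_inv (p : ℕ) {H : Type} [Group H] (S : Set H) (k : ℕ) : V p S k ≤ Inv p S := by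
  intro f hf
  exact ((mem_V_succ p S k f).1 (V_mono p S k hf)).1

theorem const_mem (p : ℕ) {H : Type} [Group H] (S : Set H) (k : ℕ) (c : ZMod p) :
    (fun _ : H => c) ∈ V p S (k + 1) := by
  rw [mem_V_succ]
  refine ⟨fun s _ x y => rfl, fun h => ?_⟩
  have : Dr p h (fun _ : H => c) = 0 := by
    funext x
    simp [Dr_apply]
  rw [this]
  exact Submodule.zero_mem _

theorem V_one (p : ℕ) {H : Type} [Group H] (S : Set H) (f : H → ZMod p) :
    f ∈ V p S 1 ↔ ∃ c : ZMod p, f = fun _ => c := by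
  constructor
  · intro hf
    rw [mem_V_succ] at hf
    refine ⟨f 1, ?_⟩
    funext x
    have h := hf.2 x
    rw [mem_V_zero, Dr_eq_zero] at h
    have h1 := congrFun h 1
    rw [Rt_apply, one_mul] at h1
    exact h1
  · rintro ⟨c, rfl⟩
    exact const_mem p S 0 c

theorem cc_zero (p : ℕ) [Fact p.Prime] {H : Type} [Group H] (S : Set H) : cc p S 0 = 0 := by
  have h : V p S 0 = ⊥ := rfl
  rw [cc, h]
  exact finrank_bot _ _

theorem cc_one (p : ℕ) [Fact p.Prime] {H : Type} [Group H] (S : Set H) : cc p S 1 = 1 := by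
  have h : V p S 1 = Submodule.span (ZMod p) {(fun _ : H => (1 : ZMod p))} := by
    ext f
    rw [V_one, Submodule.mem_span_singleton]
    constructor
    · rintro ⟨c, rfl⟩
      refine ⟨c, ?_⟩
      funext x
      simp
    · rintro ⟨c, rfl⟩
      refine ⟨c, ?_⟩
      funext x
      simp
  rw [cc, h]
  refine finrank_span_singleton ?_
  intro h0
  have := congrFun h0 1
  simp at this

end Pool.Agent.H93.GS

end S_VA

section S_VB

/-!
ROW VB (70 lines).  `V p S k` is stable under right and left translations; the representation `rV p S k` of `H` on it.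
* `Inv p S` is stable: `(Rt h f)(x s y) = f (x s (y h)) = f (x (y h))`, `(Lt h f)(x s y) = f ((h x) s y)`.
* `Rt_mem_V` by induction on `k` (all `h`, `f`): `Dr g (Rt h f) = Rt h (Dr (h⁻¹ g h) f)` (both at `x`: `f (x g h) - f (x h)`).
* `Lt_mem_V` by induction on `k`: `Dr g (Lt h f) = Lt h (Dr g f)`.
* `Dr_El`: `Dr g (El h f) = El h (Dr g f)` (funext, `mul_assoc`, `ring`/`abel`).
-/

set_option autoImplicit false

namespace Pool.Agent.H93.GS

theorem Rt_mem_Inv (p : ℕ) {H : Type} [Group H] (S : Set H) (h : H) (f : H → ZMod p)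
    (hf : f ∈ Inv p S) : Rt p h f ∈ Inv p S := by
  rw [mem_Inv] at hf ⊢
  intro s hs x y
  rw [Rt_apply, Rt_apply, mul_assoc (x * s) y h, mul_assoc x y h]
  exact hf s hs x (y * h)

theorem Lt_mem_Inv (p : ℕ) {H : Type} [Group H] (S : Set H) (h : H) (f : H → ZMod p)
    (hf : f ∈ Inv p S) : Lt p h f ∈ Inv p S := by
  rw [mem_Inv] at hf ⊢
  intro s hs x y
  have := hf s hs (h * x) y
  rw [Lt_apply, Lt_apply, ← mul_assoc, ← mul_assoc, ← mul_assoc]
  exact this

theorem Dr_mem_Inv (p : ℕ) {H : Type} [Group H] (S : Set H) (h : H) (f : H → ZMod p)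
    (hf : f ∈ Inv p S) : Dr p h f ∈ Inv p S := by
  exact Submodule.sub_mem _ (Rt_mem_Inv p S h f hf) hf

theorem El_mem_Inv (p : ℕ) {H : Type} [Group H] (S : Set H) (h : H) (f : H → ZMod p)
    (hf : f ∈ Inv p S) : El p h f ∈ Inv p S := by
  exact Submodule.sub_mem _ (Lt_mem_Inv p S h f hf) hf

theorem Rt_mem_V (p : ℕ) {H : Type} [Group H] (S : Set H) (k : ℕ) (h : H) (f : H → ZMod p)
    (hf : f ∈ V p S k) : Rt p h f ∈ V p S k := by
  induction k generalizing h f with
  | zero =>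
    rw [mem_V_zero] at hf ⊢
    rw [hf, map_zero]
  | succ k ih =>
    rw [mem_V_succ] at hf ⊢
    refine ⟨Rt_mem_Inv p S h f hf.1, fun g => ?_⟩
    have h1 : Dr p g (Rt p h f) = Rt p h (Dr p (h⁻¹ * g * h) f) := by
      funext x
      rw [Dr_apply, Rt_apply, Rt_apply, Rt_apply, Dr_apply]
      congr 2
      group
    rw [h1]
    exact ih h _ (hf.2 _)

theorem Lt_mem_V (p : ℕ) {H : Type} [Group H] (S : Set H) (k : ℕ) (h : H) (f : H → ZMod p)
    (hf : f ∈ V p S k) : Lt p h f ∈ V p S k := by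
  induction k generalizing h f with
  | zero =>
    rw [mem_V_zero] at hf ⊢
    rw [hf, map_zero]
  | succ k ih =>
    rw [mem_V_succ] at hf ⊢
    refine ⟨Lt_mem_Inv p S h f hf.1, fun g => ?_⟩
    have h1 : Dr p g (Lt p h f) = Lt p h (Dr p g f) := by
      funext x
      rw [Dr_apply, Lt_apply, Lt_apply, Lt_apply, Dr_apply, mul_assoc]
    rw [h1]
    exact ih h _ (hf.2 _)

theorem Dr_El (p : ℕ) {H : Type} [Group H] (g h : H) (f : H → ZMod p) :
    Dr p g (El p h f) = El p h (Dr p g f) := by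
  funext x
  rw [Dr_apply, El_apply, El_apply, El_apply, Dr_apply, Dr_apply, mul_assoc]
  abel

/-- right translation as a representation on `V p S k` -/
def rV (p : ℕ) {H : Type} [Group H] (S : Set H) (k : ℕ) :
    Representation (ZMod p) H (V p S k) where
  toFun h := (Rt p h).restrict (fun f hf => Rt_mem_V p S k h f hf)
  map_one' := by
    ext f
    simp [Rt_apply]
  map_mul' g h := by
    apply LinearMap.ext
    intro f
    apply Subtype.ext
    exact Rt_mul p g h f.1

theorem rV_coe (p : ℕ) {H : Type} [Group H] (S : Set H) (k : ℕ) (h : H) (f : V p S k) :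
    ((rV p S k h f : V p S k) : H → ZMod p) = Rt p h f.1 := rfl

end Pool.Agent.H93.GS

end S_VB

section S_VC

/-!
ROW VC.  `V p S k` can be defined with left differences as well.
-/

set_option autoImplicit false

namespace Pool.Agent.H93.GS

theorem mem_V_succ_left (p : ℕ) {H : Type} [Group H] (S : Set H) (k : ℕ) (f : H → ZMod p) :
    f ∈ V p S (k + 1) ↔ f ∈ Inv p S ∧ ∀ h : H, El p h f ∈ V p S k := by
  induction k generalizing f with
  | zero =>
    constructor
    · intro hf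
      refine ⟨V_inv p S 1 hf, fun h => ?_⟩
      rw [mem_V_zero]
      obtain ⟨c, rfl⟩ := (V_one p S f).1 hf
      funext x
      simp [El_apply]
    · rintro ⟨-, hf⟩
      rw [V_one]
      refine ⟨f 1, ?_⟩
      funext h
      have h1 := hf h
      rw [mem_V_zero] at h1
      have h2 := congrFun h1 1
      rw [El_apply, mul_one] at h2
      simpa [sub_eq_zero] using h2
  | succ k ih =>
    constructor
    · intro hf
      refine ⟨V_inv p S _ hf, fun h => ?_⟩
      rw [mem_V_succ] at hf ⊢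
      refine ⟨El_mem_Inv p S h f hf.1, fun g => ?_⟩
      rw [Dr_El]
      exact ((ih (Dr p g f)).1 (hf.2 g)).2 h
    · rintro ⟨hf, hE⟩
      rw [mem_V_succ]
      refine ⟨hf, fun g => ?_⟩
      rw [ih]
      refine ⟨Dr_mem_Inv p S g f hf, fun h => ?_⟩
      rw [← Dr_El]
      exact ((mem_V_succ p S k _).1 (hE h)).2 g

end Pool.Agent.H93.GS

end S_VC

section S_VD

/-!
ROW VD (70 lines).  If `H` is finitely generated then `V p S k` is finite dimensional, and `Z1 p ρ` is finite dimensional for every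
finite dimensional `ρ`.
-/

set_option autoImplicit false

namespace Pool.Agent.H93.GS

theorem V_fin (p : ℕ) [Fact p.Prime] {H : Type} [Group H] [Group.FG H] (S : Set H) (k : ℕ) :
    Module.Finite (ZMod p) (V p S k) := by
  obtain ⟨X, hX, hXf⟩ := Group.fg_iff.1 (inferInstance : Group.FG H)
  induction k with
  | zero =>
    have h0 : V p S 0 = ⊥ := rfl
    rw [h0]
    infer_instance
  | succ k ih =>
    have : Finite X := hXf
    have : Module.Finite (ZMod p) (V p S k) := ih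
    let φ : V p S (k + 1) →ₗ[ZMod p] ZMod p × (X → V p S k) :=
      LinearMap.prod ((LinearMap.proj (1 : H)).comp (V p S (k + 1)).subtype)
        (LinearMap.pi fun x => (Dr p x.1).restrict
          (fun f hf => ((mem_V_succ p S k f).1 hf).2 x.1))
    refine Module.Finite.of_injective φ ?_
    rw [injective_iff_map_eq_zero]
    intro f hf
    have h1 : f.1 1 = 0 := congrArg Prod.fst hf
    have h2 : ∀ x ∈ X, Dr p x f.1 = 0 := by
      intro x hx
      have h3 := congrFun (congrArg Prod.snd hf) ⟨x, hx⟩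
      exact congrArg Subtype.val h3
    let K : Subgroup H :=
      { carrier := {g | Rt p g f.1 = f.1}
        mul_mem' := by
          intro a b ha hb
          show Rt p (a * b) f.1 = f.1
          rw [Rt_mul, show Rt p b f.1 = f.1 from hb, show Rt p a f.1 = f.1 from ha]
        one_mem' := by
          show Rt p 1 f.1 = f.1
          funext x
          simp [Rt_apply]
        inv_mem' := by
          intro a ha
          have h : Rt p a f.1 = f.1 := ha
          show Rt p a⁻¹ f.1 = f.1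
          calc Rt p a⁻¹ f.1 = Rt p a⁻¹ (Rt p a f.1) := by rw [h]
            _ = Rt p (a⁻¹ * a) f.1 := by rw [Rt_mul]
            _ = f.1 := by
              funext x
              simp [Rt_apply] }
    have hK : K = ⊤ := by
      rw [eq_top_iff, ← hX, Subgroup.closure_le]
      intro x hx
      exact (Dr_eq_zero p x f.1).1 (h2 x hx)
    apply Subtype.ext
    funext g
    have hg : g ∈ K := by rw [hK]; exact Subgroup.mem_top g
    have h4 : Rt p g f.1 = f.1 := hg
    have h5 := congrFun h4 1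
    rw [Rt_apply, one_mul, h1] at h5
    exact h5

theorem Z1_fin (p : ℕ) [Fact p.Prime] {H : Type} [Group H] [Group.FG H] {M : Type}
    [AddCommGroup M] [Module (ZMod p) M] [Module.Finite (ZMod p) M]
    (ρ : Representation (ZMod p) H M) : Module.Finite (ZMod p) (Z1 p ρ) := by
  obtain ⟨X, hX, hXf⟩ := Group.fg_iff.1 (inferInstance : Group.FG H)
  have : Finite X := hXf
  let φ : Z1 p ρ →ₗ[ZMod p] (X → M) :=
    LinearMap.pi fun x => (LinearMap.proj x.1).comp (Z1 p ρ).subtype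
  refine Module.Finite.of_injective φ ?_
  rw [injective_iff_map_eq_zero]
  intro δ hδ
  have hc : ∀ g h : H, δ.1 (g * h) = δ.1 g + ρ g (δ.1 h) := δ.2
  have h1 : δ.1 1 = 0 := by
    have h := hc 1 1
    rw [mul_one, map_one] at h
    have h2 : δ.1 1 = δ.1 1 + δ.1 1 := h
    exact (left_eq_add.1 h2)
  let K : Subgroup H :=
    { carrier := {g | δ.1 g = 0}
      mul_mem' := by
        intro a b ha hb
        show δ.1 (a * b) = 0
        rw [hc, show δ.1 a = 0 from ha, show δ.1 b = 0 from hb, map_zero, add_zero]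
      one_mem' := h1
      inv_mem' := by
        intro a ha
        show δ.1 a⁻¹ = 0
        have h := hc a⁻¹ a
        rw [inv_mul_cancel, h1, show δ.1 a = 0 from ha, map_zero, add_zero] at h
        exact h.symm }
  have hK : K = ⊤ := by
    rw [eq_top_iff, ← hX, Subgroup.closure_le]
    intro x hx
    exact congrFun hδ ⟨x, hx⟩
  apply Subtype.ext
  funext g
  have hg : g ∈ K := by rw [hK]; exact Subgroup.mem_top g
  exact hg

end Pool.Agent.H93.GS

end S_VD

section S_VE

/-!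
ROW VE (80 lines).  The subgroups `Nk p S k` (`mem_Nk`).
* `Nk_normal`: for `g ∈ Nk`, `f ∈ V`: `Rt (h g h⁻¹) f = Rt h (Rt g (Rt h⁻¹ f)) = Rt h (Rt h⁻¹ f) = f` since `Rt h⁻¹ f ∈ V` (`Rt_mul`, `Rt_mem_V`).
* `Nk_anti` from `V_le`, `Nk_mono` from `V_anti`.
* `Nk_fin`: `H` acts on the finite set `V p S k` (finite dimensional over the finite field `ZMod p`: `V_fin`, `Module.finite_of_finite (ZMod p)`), the homomorphism
  `H →* (V p S k →ₗ V p S k)ˣ` or `H →* Equiv.Perm (V p S k)` (from `rV`, `Representation.asGroupHom` or `MonoidHom.toHomUnits`) has kernel `Nk p S k`,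
  a kernel of a homomorphism into a finite group has finite index (`Subgroup.finiteIndex_ker`).
* `mem_Nk_of_mem`: `s ∈ S`, `f ∈ V p S k ≤ Inv p S` (`V_inv`): `f (x s) = f (x s 1) = f (x 1)`.
* `V_union`: `T ⊆ Nk p S k` implies `V p (S ∪ T) k = V p S k`.  `≤`: `V_anti`.  `≥`: by induction on `j ≤ k`, `V p S j ≤ V p (S ∪ T) j`: for
  `f ∈ V p S (j+1)`, `t ∈ T`: `f (x t y) = f (x y (y⁻¹ t y)) = (Rt (y⁻¹ t y) f) (x y) = f (x y)` because `y⁻¹ t y ∈ Nk p S k ≤ Nk p S (j+1)`.
-/

set_option autoImplicit false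

namespace Pool.Agent.H93.GS

theorem Nk_normal (p : ℕ) {H : Type} [Group H] (S : Set H) (k : ℕ) : (Nk p S k).Normal := by
  constructor
  intro g hg h
  rw [mem_Nk] at hg ⊢
  intro f hf
  rw [Rt_mul, Rt_mul, hg _ (Rt_mem_V p S k h⁻¹ f hf), ← Rt_mul, mul_inv_cancel]
  funext x
  rw [Rt_apply, mul_one]

theorem Nk_anti (p : ℕ) {H : Type} [Group H] (S : Set H) {j k : ℕ} (h : j ≤ k) :
    Nk p S k ≤ Nk p S j := by
  intro g hg
  rw [mem_Nk] at hg ⊢
  exact fun f hf => hg f (V_le p S h hf)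

theorem Nk_mono (p : ℕ) {H : Type} [Group H] {S S' : Set H} (h : S ⊆ S') (k : ℕ) :
    Nk p S k ≤ Nk p S' k := by
  intro g hg
  rw [mem_Nk] at hg ⊢
  exact fun f hf => hg f (V_anti p h k hf)

theorem Nk_fin (p : ℕ) [Fact p.Prime] {H : Type} [Group H] [Group.FG H] (S : Set H) (k : ℕ) :
    (Nk p S k).FiniteIndex := by
  have h1 : Module.Finite (ZMod p) (V p S k) := V_fin p S k
  have h2 : Finite (V p S k) := Module.finite_of_finite (ZMod p)
  let φ : H →* (Module.End (ZMod p) (V p S k))ˣ := (rV p S k).toHomUnits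
  have h3 : Finite (Module.End (ZMod p) (V p S k)) :=
    Finite.of_injective (fun f : Module.End (ZMod p) (V p S k) => (f : V p S k → V p S k))
      DFunLike.coe_injective
  have h4 : Nk p S k = φ.ker := by
    ext g
    rw [mem_Nk, MonoidHom.mem_ker]
    constructor
    · intro h
      apply Units.ext
      apply LinearMap.ext
      intro f
      apply Subtype.ext
      exact h f.1 f.2
    · intro h f hf
      have h5 := congrArg (fun u : (Module.End (ZMod p) (V p S k))ˣ => ((u.1 ⟨f, hf⟩ : V p S k) :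
        H → ZMod p)) h
      exact h5
  rw [h4]
  have h5 : Finite φ.range := inferInstance
  exact Subgroup.finiteIndex_ker φ

theorem mem_Nk_of_mem (p : ℕ) {H : Type} [Group H] (S : Set H) (k : ℕ) (s : H) (hs : s ∈ S) :
    s ∈ Nk p S k := by
  rw [mem_Nk]
  intro f hf
  funext x
  have h := V_inv p S k hf s hs x 1
  rw [mul_one, mul_one] at h
  exact h

theorem V_union (p : ℕ) {H : Type} [Group H] (S T : Set H) (k : ℕ)
    (hT : ∀ t ∈ T, t ∈ Nk p S k) : V p (S ∪ T) k = V p S k := by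
  refine le_antisymm (V_anti p Set.subset_union_left k) ?_
  have key : ∀ j, j ≤ k → V p S j ≤ V p (S ∪ T) j := by
    intro j
    induction j with
    | zero =>
      intro _ f hf
      rw [mem_V_zero] at hf ⊢
      exact hf
    | succ j ih =>
      intro hj f hf
      have hf' := hf
      rw [mem_V_succ] at hf ⊢
      refine ⟨?_, fun h => ih (by omega) (hf.2 h)⟩
      intro s hs x y
      rcases hs with hs | hs
      · exact hf.1 s hs x y
      · have hn := Nk_normal p S k
        have h1 : y⁻¹ * s * y ∈ Nk p S k := by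
          have := hn.conj_mem s (hT s hs) y⁻¹
          rwa [inv_inv] at this
        have h2 := (mem_Nk p S (j + 1) _).1 (Nk_anti p S hj h1) f hf'
        have h3 := congrFun h2 (x * y)
        rw [Rt_apply] at h3
        rw [← h3]
        congr 1
        group
  exact key k le_rfl

end Pool.Agent.H93.GS

end S_VE

section S_VF

/-!
ROW VF (70 lines).
* `depth`: if `g ∈ Nk p S a` and `f ∈ V p S (k + a)` then `Dr g f ∈ V p S k`.  Induction on `k` (all `f`).  `k = 0`: `Rt g f = f` (`f ∈ V p S (0 + a)`), so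
  `Dr g f = 0`.  `k + 1`: by `mem_V_succ_left` (←) it is enough that `Dr g f ∈ Inv` (`Dr_mem_Inv`) and that `El h (Dr g f) = Dr g (El h f) ∈ V p S k`: `f ∈ V (k + 1 + a) =
  V ((k + a) + 1)` gives `El h f ∈ V (k + a)` (`mem_V_succ_left` (→)), induction hypothesis.
* `add_const`: for `1 ≤ a`, `g ∈ Nk p S a`, `f ∈ V p S (a + 1)` there is `c` with `f (x g) = f x + c` for all `x` (`depth` with `k = 1`, `V_one`).
* `pow_mem_Nk`: with `c` as above `f (x g ^ n) = f x + n c` (induction on `n`), and `(p : ZMod p) = 0`.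
* `comm_mem_Nk`: `g ∈ Nk p S a`, `f ∈ V (a+1)`, `c` as above.  Put `u = x h`.  `Dr h⁻¹ f ∈ V a` is fixed by `Rt g`:
  `f (u g h⁻¹) - f (u g) = (Dr h⁻¹ f)(u g) = (Dr h⁻¹ f) u = f (u h⁻¹) - f u`, so `f (x h g h⁻¹) = f (u g) + f x - f u = f x + c`.
  With `y = x h g h⁻¹ g⁻¹`: `f (y g) = f y + c`, `y g = x h g h⁻¹`, so `f y = f x`.
-/

set_option autoImplicit false

namespace Pool.Agent.H93.GS

theorem depth (p : ℕ) {H : Type} [Group H] (S : Set H) (a : ℕ) (g : H) (hg : g ∈ Nk p S a)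
    (k : ℕ) (f : H → ZMod p) (hf : f ∈ V p S (k + a)) : Dr p g f ∈ V p S k := by
  induction k generalizing f with
  | zero =>
    rw [zero_add] at hf
    rw [mem_V_zero, Dr_eq_zero]
    exact (mem_Nk p S a g).1 hg f hf
  | succ k ih =>
    have e : k + 1 + a = (k + a) + 1 := by omega
    rw [e] at hf
    rw [mem_V_succ_left]
    refine ⟨Dr_mem_Inv p S g f (V_inv p S _ hf), fun h => ?_⟩
    rw [← Dr_El]
    exact ih _ (((mem_V_succ_left p S (k + a) f).1 hf).2 h)

theorem add_const (p : ℕ) {H : Type} [Group H] (S : Set H) (a : ℕ) (g : H)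
    (hg : g ∈ Nk p S a) (f : H → ZMod p) (hf : f ∈ V p S (a + 1)) :
    ∃ c : ZMod p, ∀ x : H, f (x * g) = f x + c := by
  have h1 : Dr p g f ∈ V p S 1 := by
    apply depth p S a g hg 1 f
    rw [add_comm 1 a]
    exact hf
  obtain ⟨c, hc⟩ := (V_one p S _).1 h1
  refine ⟨c, fun x => ?_⟩
  have h2 := congrFun hc x
  rw [Dr_apply] at h2
  rw [← h2]
  ring

theorem pow_mem_Nk (p : ℕ) {H : Type} [Group H] (S : Set H) (a : ℕ) (g : H)
    (hg : g ∈ Nk p S a) : g ^ p ∈ Nk p S (a + 1) := by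
  rw [mem_Nk]
  intro f hf
  obtain ⟨c, hc⟩ := add_const p S a g hg f hf
  have key : ∀ (n : ℕ) (x : H), f (x * g ^ n) = f x + (n : ZMod p) * c := by
    intro n
    induction n with
    | zero =>
      intro x
      simp
    | succ n ih =>
      intro x
      rw [pow_succ, ← mul_assoc, hc, ih]
      push_cast
      ring
  funext x
  rw [Rt_apply, key]
  simp

theorem comm_mem_Nk (p : ℕ) {H : Type} [Group H] (S : Set H) (a : ℕ) (g h : H)
    (hg : g ∈ Nk p S a) : h * g * h⁻¹ * g⁻¹ ∈ Nk p S (a + 1) := by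
  rw [mem_Nk]
  intro f hf
  obtain ⟨c, hc⟩ := add_const p S a g hg f hf
  have h1 : Dr p h⁻¹ f ∈ V p S a := ((mem_V_succ p S a f).1 hf).2 h⁻¹
  have h2 := (mem_Nk p S a g).1 hg _ h1
  funext x
  rw [Rt_apply]
  have h3 := congrFun h2 (x * h)
  rw [Rt_apply, Dr_apply, Dr_apply, hc (x * h), mul_inv_cancel_right] at h3
  have h4 := hc (x * (h * g * h⁻¹ * g⁻¹))
  have e1 : x * (h * g * h⁻¹ * g⁻¹) * g = x * h * g * h⁻¹ := by group
  rw [e1] at h4
  have h5 : f (x * (h * g * h⁻¹ * g⁻¹)) + c = f (x * h) + c + (f x - f (x * h)) := by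
    rw [← h4, ← h3]
    ring
  have h6 : f (x * (h * g * h⁻¹ * g⁻¹)) + c = f x + c := by
    rw [h5]
    ring
  exact add_right_cancel h6

end Pool.Agent.H93.GS

end S_VF

section S_PA

/-!
ROW PA (70 lines).  From crossed homomorphisms to functions.  `fd δ x = (δ x) 1` for `δ ∈ Z1 p (rV p S k)`.
* `fd_Dr`: `fd δ (x h) - fd δ x = (rV x (δ h)) 1 = (δ h) (1 * x) = (δ h) x` (`mem_Z1`, `rV_coe`, `Rt_apply`).
* `fd_mem`: if `δ s = 0` for all `s ∈ S` then `fd δ ∈ V p S (k+1)`: `Dr h (fd δ) = δ h ∈ V p S k`; invariance: `δ (x s y) = δ x + x (δ s + s (δ y)) = δ x + x s (δ y)`, so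
  `fd δ (x s y) = (δ x) 1 + (δ y) (x s) = (δ x) 1 + (δ y) x = fd δ (x y)` since `δ y ∈ V p S k ≤ Inv p S` (use it at `x`, `1`).
* `fd_mem_empty`: same for `V p ∅ (k+1)`: `Dr h (fd δ) = δ h ∈ V p S k ≤ V p ∅ k` (`V_anti`), no invariance needed.
* `V_of_empty`: `f ∈ V p ∅ i` and `f ∈ Inv p S` imply `f ∈ V p S i` (induction on `i`, `Dr_mem_Inv`).
-/

set_option autoImplicit false

namespace Pool.Agent.H93.GS

/-- the function of a crossed homomorphism -/
def fd (p : ℕ) {H : Type} [Group H] (S : Set H) (k : ℕ) (δ : H → V p S k) : H → ZMod p :=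
  fun x => (δ x).1 1

private theorem fd_mul (p : ℕ) {H : Type} [Group H] (S : Set H) (k : ℕ) (δ : H → V p S k)
    (hδ : δ ∈ Z1 p (rV p S k)) (x h z : H) : (δ (x * h)).1 z = (δ x).1 z + (δ h).1 (z * x) := by
  rw [(mem_Z1 p (rV p S k) δ).1 hδ x h]
  show (δ x).1 z + (rV p S k x (δ h)).1 z = _
  rw [rV_coe, Rt_apply]

theorem fd_Dr (p : ℕ) {H : Type} [Group H] (S : Set H) (k : ℕ) (δ : H → V p S k)
    (hδ : δ ∈ Z1 p (rV p S k)) (h : H) : Dr p h (fd p S k δ) = (δ h).1 := by
  funext x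
  rw [Dr_apply]
  show (δ (x * h)).1 1 - (δ x).1 1 = _
  rw [fd_mul p S k δ hδ, one_mul, add_sub_cancel_left]

theorem fd_one (p : ℕ) {H : Type} [Group H] (S : Set H) (k : ℕ) (δ : H → V p S k)
    (hδ : δ ∈ Z1 p (rV p S k)) : fd p S k δ 1 = 0 := by
  show (δ 1).1 1 = 0
  have h := fd_mul p S k δ hδ 1 1 1
  rw [mul_one] at h
  exact left_eq_add.1 h

theorem fd_mem (p : ℕ) {H : Type} [Group H] (S : Set H) (k : ℕ) (δ : H → V p S k)
    (hδ : δ ∈ Z1 p (rV p S k)) (hs : ∀ s ∈ S, δ s = 0) : fd p S k δ ∈ V p S (k + 1) := by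
  rw [mem_V_succ]
  refine ⟨?_, fun h => ?_⟩
  · rw [mem_Inv]
    intro s hsS x y
    show (δ (x * s * y)).1 1 = (δ (x * y)).1 1
    rw [mul_assoc, fd_mul p S k δ hδ x (s * y), fd_mul p S k δ hδ x y, fd_mul p S k δ hδ s y,
      hs s hsS, one_mul]
    have h1 := (mem_Inv p S (δ y).1).1 (V_inv p S k (δ y).2) s hsS x 1
    rw [mul_one, mul_one] at h1
    rw [h1]
    show (δ x).1 1 + (0 + (δ y).1 x) = _
    rw [zero_add]
  · rw [fd_Dr p S k δ hδ]
    exact (δ h).2

theorem fd_mem_empty (p : ℕ) {H : Type} [Group H] (S : Set H) (k : ℕ) (δ : H → V p S k)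
    (hδ : δ ∈ Z1 p (rV p S k)) : fd p S k δ ∈ V p (∅ : Set H) (k + 1) := by
  rw [mem_V_succ]
  refine ⟨?_, fun h => ?_⟩
  · rw [mem_Inv]
    intro s hs
    exact hs.elim
  · rw [fd_Dr p S k δ hδ]
    exact V_anti p (Set.empty_subset S) k (δ h).2

theorem V_of_empty (p : ℕ) {H : Type} [Group H] (S : Set H) (i : ℕ) (f : H → ZMod p)
    (h1 : f ∈ V p (∅ : Set H) i) (h2 : f ∈ Inv p S) : f ∈ V p S i := by
  induction i generalizing f with
  | zero =>
    rw [mem_V_zero] at h1 ⊢
    exact h1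
  | succ i ih =>
    rw [mem_V_succ] at h1 ⊢
    exact ⟨h2, fun h => ih _ (h1.2 h) (Dr_mem_Inv p S h f h2)⟩

end Pool.Agent.H93.GS

end S_PA

section S_PB

/-!
ROW PB (40 lines).  A relator of depth `a` imposes few conditions: for `s ∈ Nk p ∅ a` and `δ ∈ Z1 p (rV p S k)` the function `δ s` lies in
`V p S (k + 1 - a)` (natural subtraction).
Proof.  `f = fd δ ∈ V p ∅ (k+1)` (`fd_mem_empty`), `Dr s f = δ s` (`fd_Dr`), `δ s ∈ V p S k ≤ Inv p S` (`V_inv`).
If `a ≤ k + 1`: `k + 1 = (k + 1 - a) + a`, `depth` (with `S = ∅`) gives `δ s ∈ V p ∅ (k+1-a)`, then `V_of_empty`.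
If `a > k + 1`: `s ∈ Nk p ∅ (k+1)` (`Nk_anti`), so `Rt s f = f`, `δ s = 0` (`Dr_eq_zero`).
-/

set_option autoImplicit false

namespace Pool.Agent.H93.GS

theorem eval_mem (p : ℕ) {H : Type} [Group H] (S : Set H) (k a : ℕ) (s : H)
    (hs : s ∈ Nk p (∅ : Set H) a) (δ : H → V p S k) (hδ : δ ∈ Z1 p (rV p S k)) :
    ((δ s : V p S k) : H → ZMod p) ∈ V p S (k + 1 - a) := by
  have h1 := fd_mem_empty p S k δ hδ
  have h2 := fd_Dr p S k δ hδ s
  rcases le_or_gt a (k + 1) with h | h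
  · have e : k + 1 = (k + 1 - a) + a := by omega
    rw [e] at h1
    have h3 := depth p ∅ a s hs (k + 1 - a) _ h1
    rw [h2] at h3
    exact V_of_empty p S _ _ h3 (V_inv p S k (δ s).2)
  · have h3 : s ∈ Nk p (∅ : Set H) (k + 1) := Nk_anti p ∅ h.le hs
    have h4 : Dr p s (fd p S k δ) = 0 := (Dr_eq_zero p s _).2 (h3 _ h1)
    rw [← h2, h4]
    exact zero_mem _

end Pool.Agent.H93.GS

end S_PB

section S_LA

/-!
ROW LA (60 lines).  Linear algebra: common kernel of a list of maps with small images.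
Induction on `L`.  `[]`: the set of solutions is everything.  `i :: L`: let `Z' = {z | ∀ j ∈ L, φ j z = 0}`; the kernel of `φ i` restricted to `Z'` is the set for `i :: L`,
its range lies in `U i`; rank-nullity (`LinearMap.finrank_range_add_finrank_ker`, `Submodule.finrank_mono`).
-/

set_option autoImplicit false

namespace Pool.Agent.H93.GS

/-- common zeros of the maps `φ i`, `i ∈ L` -/
def commonKer {K Z W ι : Type} [Field K] [AddCommGroup Z] [Module K Z] [AddCommGroup W]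
    [Module K W] (L : List ι) (φ : ι → Z →ₗ[K] W) : Submodule K Z where
  carrier := {z | ∀ i ∈ L, φ i z = 0}
  add_mem' := by
    intro a b ha hb i hi
    rw [map_add, ha i hi, hb i hi, add_zero]
  zero_mem' := by
    intro i _
    exact map_zero _
  smul_mem' := by
    intro c a ha i hi
    rw [map_smul, ha i hi, smul_zero]

theorem LA_main {K Z W ι : Type} [Field K] [AddCommGroup Z] [Module K Z]
    [Module.Finite K Z] [AddCommGroup W] [Module K W] (L : List ι) (φ : ι → Z →ₗ[K] W)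
    (U : ι → Submodule K W) (hU : ∀ i, Module.Finite K (U i))
    (h : ∀ i ∈ L, ∀ z, φ i z ∈ U i) :
    Module.finrank K Z ≤ Module.finrank K (commonKer L φ) +
      (L.map (fun i => Module.finrank K (U i))).sum := by
  induction L with
  | nil =>
    have hinj : Function.Injective
        ((LinearMap.id : Z →ₗ[K] Z).codRestrict (commonKer ([] : List ι) φ)
          (fun z i hi => absurd hi (List.not_mem_nil))) := by
      intro a b hab
      exact congrArg Subtype.val hab
    have h1 := LinearMap.finrank_le_finrank_of_injective hinj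
    exact le_trans h1 (Nat.le_add_right _ _)
  | cons i L ih =>
    have h1 := ih (fun j hj => h j (List.mem_cons_of_mem i hj))
    let ψ : commonKer L φ →ₗ[K] U i :=
      LinearMap.codRestrict (U i) ((φ i).comp (commonKer L φ).subtype)
        (fun z => h i List.mem_cons_self z.1)
    have hψ : ∀ z, ((ψ z : U i) : W) = φ i z.1 := fun z => rfl
    have := hU i
    have h2 : Module.finrank K (LinearMap.range ψ) ≤ Module.finrank K (U i) :=
      Submodule.finrank_le _
    have h3 := LinearMap.finrank_range_add_finrank_ker ψ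
    let θ : LinearMap.ker ψ →ₗ[K] commonKer (i :: L) φ :=
      LinearMap.codRestrict (commonKer (i :: L) φ)
        ((commonKer L φ).subtype.comp (LinearMap.ker ψ).subtype)
        (by
          intro z j hj
          rcases List.mem_cons.1 hj with hji | hjL
          · subst hji
            have h4 : ψ z.1 = 0 := z.2
            have h5 := hψ z.1
            rw [h4] at h5
            exact h5.symm
          · exact z.1.2 j hjL)
    have hθ : Function.Injective θ := by
      intro a b hab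
      have h7 : (θ a).1 = (θ b).1 := congrArg Subtype.val hab
      exact Subtype.ext (Subtype.ext h7)
    have h6 := LinearMap.finrank_le_finrank_of_injective hθ
    rw [List.map_cons, List.sum_cons]
    omega

end Pool.Agent.H93.GS

end S_LA

section S_PC

/-!
ROW PC (100 lines).  The Golod-Shafarevich recursion.  Let `T = rs S`, `Z = Z1 p (rV p T k)` (finite dimensional: `V_fin`, `Z1_fin`).
(1) `LA_main` with `L = S`, `W = (H → ZMod p)`, `φ q δ = ((δ q.1 : V p T k) : H → ZMod p)`, `U q = V p T (k+1-q.2)` (`eval_mem`, `hS q`): 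
    `finrank Z ≤ finrank (commonKer S φ) + ∑_{q ∈ S} cc p T (k+1-q.2)`.
(2) `1 + finrank (commonKer S φ) ≤ cc p T (k+1)`: the linear map `ZMod p × commonKer S φ → V p T (k+1)`, `(c, δ) ↦ (fun x => c + fd δ x)` is injective:
    at `x = 1` it is `c` (`fd_one`), so `c = 0`, then `fd δ = 0`, so `δ h = Dr h (fd δ) = 0` (`fd_Dr`).  It is well defined by `const_mem`, `fd_mem`
    (`δ s = 0` for `s ∈ rs S` from `commonKer`).  `LinearMap.finrank_le_finrank_of_injective`, `Module.finrank_prod`, `Module.finrank_self`.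
(3) `hd` (the GS datum) with `M = V p T k`, `ρ = rV p T k`, `M' = (V p T (k-1)).comap (V p T k).subtype` (`V_le`; its finrank is `cc p T (k-1)`: `Submodule.comapSubtypeEquivOfLe`):
    `rV g v ∈ M'` for `v ∈ M'` (`Rt_mem_V`), `rV g v - v = Dr g v ∈ V p T (k-1)` since `v ∈ V p T ((k-1)+1)` (`mem_V_succ`, `hk`).
-/

set_option autoImplicit false

namespace Pool.Agent.H93.GS

/-- evaluation of a crossed homomorphism at a relator -/
def PC_phi (p : ℕ) {H : Type} [Group H] (T : Set H) (k : ℕ) (q : H × ℕ) :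
    Z1 p (rV p T k) →ₗ[ZMod p] (H → ZMod p) :=
  (V p T k).subtype ∘ₗ (LinearMap.proj (R := ZMod p) (φ := fun _ : H => V p T k) q.1) ∘ₗ
    (Z1 p (rV p T k)).subtype

theorem PC_phi_apply (p : ℕ) {H : Type} [Group H] (T : Set H) (k : ℕ) (q : H × ℕ)
    (δ : Z1 p (rV p T k)) : PC_phi p T k q δ = ((δ.1 q.1 : V p T k) : H → ZMod p) := rfl

theorem PC_zero (p : ℕ) [Fact p.Prime] {H : Type} [Group H] (S : List (H × ℕ)) (k : ℕ)
    (δ : commonKer S (PC_phi p (rs S) k)) : ∀ s ∈ rs S, δ.1.1 s = 0 := by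
  rintro s ⟨a, ha⟩
  have h1 : PC_phi p (rs S) k (s, a) δ.1 = 0 := δ.2 (s, a) ha
  rw [PC_phi_apply] at h1
  exact Subtype.ext h1

/-- the functions of the crossed homomorphisms that vanish on the relators, plus constants -/
def PC_psi (p : ℕ) [Fact p.Prime] {H : Type} [Group H] (S : List (H × ℕ)) (k : ℕ) :
    (ZMod p × commonKer S (PC_phi p (rs S) k)) →ₗ[ZMod p] V p (rs S) (k + 1) where
  toFun cd := ⟨(fun _ => cd.1) + fd p (rs S) k cd.2.1.1,
    Submodule.add_mem _ (const_mem p (rs S) k cd.1)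
      (fd_mem p (rs S) k cd.2.1.1 cd.2.1.2 (PC_zero p S k cd.2))⟩
  map_add' a b := by
    apply Subtype.ext
    funext x
    show (a.1 + b.1) + ((a.2.1.1 x + b.2.1.1 x : V p (rs S) k) : H → ZMod p) 1
      = (a.1 + (a.2.1.1 x : H → ZMod p) 1) + (b.1 + (b.2.1.1 x : H → ZMod p) 1)
    rw [Submodule.coe_add, Pi.add_apply]
    ring
  map_smul' c a := by
    apply Subtype.ext
    funext x
    show (c * a.1) + ((c • a.2.1.1 x : V p (rs S) k) : H → ZMod p) 1
      = c * (a.1 + (a.2.1.1 x : H → ZMod p) 1)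
    rw [Submodule.coe_smul, Pi.smul_apply, smul_eq_mul]
    ring

theorem PC_psi_inj (p : ℕ) [Fact p.Prime] {H : Type} [Group H] (S : List (H × ℕ)) (k : ℕ) :
    Function.Injective (PC_psi p S k) := by
  rw [← LinearMap.ker_eq_bot, LinearMap.ker_eq_bot']
  rintro ⟨c, δ⟩ h
  have h1 : (fun _ : H => c) + fd p (rs S) k δ.1.1 = 0 := congrArg Subtype.val h
  have h2 := congrFun h1 1
  have h3 : c + fd p (rs S) k δ.1.1 1 = 0 := h2
  rw [fd_one p (rs S) k δ.1.1 δ.1.2, add_zero] at h3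
  have h4 : fd p (rs S) k δ.1.1 = 0 := by
    rw [h3] at h1
    funext x
    have h5 := congrFun h1 x
    have h6 : (0 : ZMod p) + fd p (rs S) k δ.1.1 x = 0 := h5
    rwa [zero_add] at h6
  have h5 : δ = 0 := by
    apply Subtype.ext
    apply Subtype.ext
    funext x
    apply Subtype.ext
    have h6 := fd_Dr p (rs S) k δ.1.1 δ.1.2 x
    rw [h4, map_zero] at h6
    exact h6.symm
  rw [h3, h5]
  rfl

theorem star (p : ℕ) [Fact p.Prime] {H : Type} [Group H] [Group.FG H] (d r : ℤ)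
    (hd : GSD p H d r) (S : List (H × ℕ)) (hS : Dp p S) (k : ℕ) (hk : 1 ≤ k) :
    (1 : ℤ) + d * (cc p (rs S) k : ℤ) - r * (cc p (rs S) (k - 1) : ℤ) -
        (S.map (fun q => (cc p (rs S) (k + 1 - q.2) : ℤ))).sum ≤ (cc p (rs S) (k + 1) : ℤ) := by
  haveI hfin : ∀ j, Module.Finite (ZMod p) (V p (rs S) j) := fun j => V_fin p (rs S) j
  haveI hZ : Module.Finite (ZMod p) (Z1 p (rV p (rs S) k)) := Z1_fin p (rV p (rs S) k)
  have h1 := LA_main S (PC_phi p (rs S) k) (fun q => V p (rs S) (k + 1 - q.2)) (fun q => hfin _)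
    (fun q hq z => eval_mem p (rs S) k q.2 q.1 (hS q hq).2 z.1 z.2)
  have h2 : 1 + Module.finrank (ZMod p) (commonKer S (PC_phi p (rs S) k)) ≤ cc p (rs S) (k + 1) := by
    have h3 := LinearMap.finrank_le_finrank_of_injective (PC_psi_inj p S k)
    rw [Module.finrank_prod, Module.finrank_self] at h3
    exact h3
  have h3 := hd (V p (rs S) k) (rV p (rs S) k) ((V p (rs S) (k - 1)).comap (V p (rs S) k).subtype)
    (fun g v hv => Rt_mem_V p (rs S) (k - 1) g v.1 hv)
    (fun g v => by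
      have hv : v.1 ∈ V p (rs S) (k - 1 + 1) := by
        rw [Nat.sub_add_cancel hk]
        exact v.2
      have h4 := ((mem_V_succ p (rs S) (k - 1) v.1).1 hv).2 g
      exact h4)
  have h4 : Module.finrank (ZMod p) ((V p (rs S) (k - 1)).comap (V p (rs S) k).subtype)
      = cc p (rs S) (k - 1) :=
    LinearEquiv.finrank_eq (Submodule.comapSubtypeEquivOfLe (V_le p (rs S) (Nat.sub_le k 1)))
  rw [h4] at h3
  have h5 : (S.map (fun q => (cc p (rs S) (k + 1 - q.2) : ℤ))).sum
      = (((S.map (fun q => Module.finrank (ZMod p) (V p (rs S) (k + 1 - q.2)))).sum : ℕ) : ℤ) := by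
    rw [Nat.cast_list_sum, List.map_map]
    rfl
  rw [h5]
  have h6 : (Module.finrank (ZMod p) (Z1 p (rV p (rs S) k)) : ℤ)
      ≤ (Module.finrank (ZMod p) (commonKer S (PC_phi p (rs S) k)) : ℤ)
        + (((S.map (fun q => Module.finrank (ZMod p) (V p (rs S) (k + 1 - q.2)))).sum : ℕ) : ℤ) := by
    exact_mod_cast h1
  have h7 : (1 : ℤ) + (Module.finrank (ZMod p) (commonKer S (PC_phi p (rs S) k)) : ℤ)
      ≤ (cc p (rs S) (k + 1) : ℤ) := by
    exact_mod_cast h2
  have h8 : d * (cc p (rs S) k : ℤ) - r * (cc p (rs S) (k - 1) : ℤ)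
      ≤ (Module.finrank (ZMod p) (Z1 p (rV p (rs S) k)) : ℤ) := h3
  linarith

end Pool.Agent.H93.GS

end S_PC

section S_NUM

/-!
ROW NUM (100 lines).  Numeric lemma.  Let `s K = ∑_{k ≤ K} c k t^k`.  Claim `c (K+1) t^(K+1) ≥ t` for all `K ≥ 0`; then `c (K+1) ≥ t / t^(K+1) = t^(-K) → ∞`.
Proof.  For every `k ≥ 0`: `c (k+1) ≥ 1 + d c k - r c (k-1) - ∑_a c (k+1-a)` (reals): `hs` for `k ≥ 1`; for `k = 0`: `c 1 = 1 ≥ 1 + 0 - 0 - 0` (`c 0 = 0`, `0 - 1 = 0`, `1 - a = 0` as `a ≥ 1`).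
Multiply by `t^(k+1)` and sum over `k ≤ K`.  Left side: `∑_{k ≤ K} c (k+1) t^(k+1) = s K + c (K+1) t^(K+1)` (`c 0 = 0`).
Right side `≥ t + d t (s K) - r t² (s K) - ∑_a t^a (s K)`:  `∑ t^(k+1) ≥ t`;  `∑ c k t^(k+1) = t s K`;
`∑_{k ≤ K} c (k-1) t^(k+1) ≤ t² s K` (k = 0 term is 0, terms are nonnegative, `0 ≤ r`);  `∑_{k ≤ K} c (k+1-a) t^(k+1) ≤ t^a s K` (terms with `k + 1 < a` vanish as `c 0 = 0`,
for `k + 1 ≥ a` put `i = k + 1 - a ≤ K`).
So `s K + c (K+1) t^(K+1) ≥ t + (d t - r t² - ∑ t^a) s K ≥ t + s K` by `hneg` and `s K ≥ 0`.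
-/

set_option autoImplicit false

namespace Pool.Agent.H93.GS

theorem NUM_shift (c : ℕ → ℕ) (t : ℝ) (h0 : c 0 = 0) (a : ℕ) (ha : 1 ≤ a) (n : ℕ) :
    ∑ k ∈ Finset.range n, (c (k + 1 - a) : ℝ) * t ^ (k + 1) =
      t ^ a * ∑ i ∈ Finset.range (n + 1 - a), (c i : ℝ) * t ^ i := by
  induction n with
  | zero =>
    have : 0 + 1 - a = 0 := by omega
    simp [this]
  | succ n ih =>
    rw [Finset.sum_range_succ, ih]
    rcases Nat.lt_or_ge (n + 1) a with h | h
    · have e1 : n + 1 - a = 0 := by omega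
      have e2 : n + 1 + 1 - a = 0 := by omega
      rw [e1, e2, h0]
      simp
    · have e2 : n + 1 + 1 - a = (n + 1 - a) + 1 := by omega
      have e3 : t ^ (n + 1) = t ^ a * t ^ (n + 1 - a) := by
        rw [← pow_add]
        congr 1
        omega
      rw [e2, Finset.sum_range_succ, e3]
      ring

theorem NUM_list (c : ℕ → ℕ) (t : ℝ) (ht0 : 0 < t) (h0 : c 0 = 0) (K : ℕ) (A : List ℕ)
    (hA : ∀ a ∈ A, 1 ≤ a) :
    ∑ k ∈ Finset.range (K + 1), (A.map (fun a => (c (k + 1 - a) : ℝ))).sum * t ^ (k + 1) ≤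
      (A.map (fun a => t ^ a)).sum * ∑ i ∈ Finset.range (K + 1), (c i : ℝ) * t ^ i := by
  induction A with
  | nil => simp
  | cons a A ih =>
    have h1 := ih (fun b hb => hA b (List.mem_cons_of_mem _ hb))
    have ha : 1 ≤ a := hA a List.mem_cons_self
    have h2 : ∑ k ∈ Finset.range (K + 1), (c (k + 1 - a) : ℝ) * t ^ (k + 1) ≤
        t ^ a * ∑ i ∈ Finset.range (K + 1), (c i : ℝ) * t ^ i := by
      rw [NUM_shift c t h0 a ha]
      refine mul_le_mul_of_nonneg_left ?_ (pow_nonneg ht0.le _)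
      refine Finset.sum_le_sum_of_subset_of_nonneg ?_ ?_
      · intro i hi
        rw [Finset.mem_range] at hi ⊢
        omega
      · intro i _ _
        exact mul_nonneg (Nat.cast_nonneg _) (pow_nonneg ht0.le _)
    simp only [List.map_cons, List.sum_cons, add_mul, Finset.sum_add_distrib]
    exact add_le_add h2 h1

theorem NUM_main (c : ℕ → ℕ) (d r : ℤ) (hr : 0 ≤ r) (A : List ℕ) (hA : ∀ a ∈ A, 1 ≤ a) (t : ℝ)
    (ht0 : 0 < t) (ht1 : t < 1) (h0 : c 0 = 0) (h1 : c 1 = 1)
    (hs : ∀ k, 1 ≤ k → (1 : ℤ) + d * (c k : ℤ) - r * (c (k - 1) : ℤ) -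
      (A.map (fun a => (c (k + 1 - a) : ℤ))).sum ≤ (c (k + 1) : ℤ))
    (hneg : 1 - (d : ℝ) * t + (r : ℝ) * t ^ 2 + (A.map (fun a => t ^ a)).sum < 0) :
    ∀ B : ℕ, ∃ k, B < c k := by
  have hk : ∀ k : ℕ, (1 : ℝ) + d * (c k : ℝ) - r * (c (k - 1) : ℝ) -
      (A.map (fun a => (c (k + 1 - a) : ℝ))).sum ≤ (c (k + 1) : ℝ) := by
    intro k
    rcases Nat.eq_zero_or_pos k with rfl | hpos
    · have e : (A.map (fun a => (c (0 + 1 - a) : ℝ))).sum = 0 := by
        apply List.sum_eq_zero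
        intro x hx
        obtain ⟨a, ha, rfl⟩ := List.mem_map.1 hx
        have h2 := hA a ha
        have h3 : 0 + 1 - a = 0 := by omega
        simp only [h3, h0, Nat.cast_zero]
      rw [e]
      simp [h0, h1]
    · have h := hs k hpos
      have h2 : (((1 : ℤ) + d * (c k : ℤ) - r * (c (k - 1) : ℤ) -
        (A.map (fun a => (c (k + 1 - a) : ℤ))).sum : ℤ) : ℝ) ≤ (((c (k + 1) : ℤ) : ℤ) : ℝ) := by
        exact_mod_cast h
      have e : (((A.map (fun a => (c (k + 1 - a) : ℤ))).sum : ℤ) : ℝ) =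
          (A.map (fun a => (c (k + 1 - a) : ℝ))).sum := by
        clear hA hs hneg h h2
        induction A with
        | nil => simp
        | cons a A ih => simp only [List.map_cons, List.sum_cons, Int.cast_add, ih, Int.cast_natCast]
      push_cast at h2
      rw [← e]
      simpa using h2
  have key : ∀ K : ℕ, t ≤ (c (K + 1) : ℝ) * t ^ (K + 1) := by
    intro K
    set S : ℝ := ∑ i ∈ Finset.range (K + 1), (c i : ℝ) * t ^ i with hS
    have hS0 : 0 ≤ S := Finset.sum_nonneg fun i _ => mul_nonneg (Nat.cast_nonneg _) (pow_nonneg ht0.le _)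
    have e1 : ∑ k ∈ Finset.range (K + 1), (c (k + 1) : ℝ) * t ^ (k + 1) = S + (c (K + 1) : ℝ) * t ^ (K + 1) := by
      have a1 := Finset.sum_range_succ' (fun k => (c k : ℝ) * t ^ k) (K + 1)
      have a2 := Finset.sum_range_succ (fun k => (c k : ℝ) * t ^ k) (K + 1)
      rw [a2] at a1
      simp only [h0, Nat.cast_zero, zero_mul, add_zero] at a1
      rw [← a1]
    have e2 : t ≤ ∑ k ∈ Finset.range (K + 1), t ^ (k + 1) := by
      have := Finset.single_le_sum (f := fun k => t ^ (k + 1)) (s := Finset.range (K + 1))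
        (fun i _ => pow_nonneg ht0.le _) (Finset.mem_range.2 (Nat.succ_pos K))
      simpa using this
    have e3 : ∑ k ∈ Finset.range (K + 1), (c k : ℝ) * t ^ (k + 1) = t * S := by
      rw [hS, Finset.mul_sum]
      refine Finset.sum_congr rfl fun k _ => ?_
      rw [pow_succ]
      ring
    have e4 : ∑ k ∈ Finset.range (K + 1), (c (k - 1) : ℝ) * t ^ (k + 1) ≤ t ^ 2 * S := by
      rw [Finset.sum_range_succ']
      simp only [Nat.add_sub_cancel, Nat.zero_sub, h0, Nat.cast_zero, zero_mul, add_zero]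
      have a1 : ∑ k ∈ Finset.range K, (c k : ℝ) * t ^ (k + 1 + 1) =
          t ^ 2 * ∑ k ∈ Finset.range K, (c k : ℝ) * t ^ k := by
        rw [Finset.mul_sum]
        refine Finset.sum_congr rfl fun k _ => ?_
        ring
      rw [a1]
      refine mul_le_mul_of_nonneg_left ?_ (by positivity)
      rw [hS, Finset.sum_range_succ]
      have : 0 ≤ (c K : ℝ) * t ^ K := mul_nonneg (Nat.cast_nonneg _) (pow_nonneg ht0.le _)
      linarith
    have e5 := NUM_list c t ht0 h0 K A hA
    rw [← hS] at e5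
    have e6 : ∑ k ∈ Finset.range (K + 1), ((1 : ℝ) + d * (c k : ℝ) - r * (c (k - 1) : ℝ) -
        (A.map (fun a => (c (k + 1 - a) : ℝ))).sum) * t ^ (k + 1) ≤
        ∑ k ∈ Finset.range (K + 1), (c (k + 1) : ℝ) * t ^ (k + 1) :=
      Finset.sum_le_sum fun k _ => mul_le_mul_of_nonneg_right (hk k) (pow_nonneg ht0.le _)
    have e7 : ∑ k ∈ Finset.range (K + 1), ((1 : ℝ) + d * (c k : ℝ) - r * (c (k - 1) : ℝ) -
        (A.map (fun a => (c (k + 1 - a) : ℝ))).sum) * t ^ (k + 1) =
        ∑ k ∈ Finset.range (K + 1), t ^ (k + 1) +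
        (d : ℝ) * ∑ k ∈ Finset.range (K + 1), (c k : ℝ) * t ^ (k + 1) -
        (r : ℝ) * ∑ k ∈ Finset.range (K + 1), (c (k - 1) : ℝ) * t ^ (k + 1) -
        ∑ k ∈ Finset.range (K + 1), (A.map (fun a => (c (k + 1 - a) : ℝ))).sum * t ^ (k + 1) := by
      rw [Finset.mul_sum, Finset.mul_sum, ← Finset.sum_add_distrib, ← Finset.sum_sub_distrib,
        ← Finset.sum_sub_distrib]
      refine Finset.sum_congr rfl fun k _ => ?_
      ring
    rw [e7, e1, e3] at e6
    have hr' : (0 : ℝ) ≤ (r : ℝ) := by exact_mod_cast hr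
    have e8 : (r : ℝ) * ∑ k ∈ Finset.range (K + 1), (c (k - 1) : ℝ) * t ^ (k + 1) ≤ (r : ℝ) * (t ^ 2 * S) :=
      mul_le_mul_of_nonneg_left e4 hr'
    have e9 : 0 ≤ ((d : ℝ) * t - (r : ℝ) * t ^ 2 - (A.map (fun a => t ^ a)).sum - 1) * S :=
      mul_nonneg (by linarith) hS0
    nlinarith [e6, e8, e5, e2, e9]
  intro B
  obtain ⟨K, hK⟩ := pow_unbounded_of_one_lt (B : ℝ) ((one_lt_inv₀ ht0).2 ht1)
  refine ⟨K + 1, ?_⟩
  have h2 := key K
  have h3 : (1 : ℝ) ≤ (c (K + 1) : ℝ) * t ^ K := by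
    have : t * 1 ≤ t * ((c (K + 1) : ℝ) * t ^ K) := by
      calc t * 1 = t := mul_one t
        _ ≤ (c (K + 1) : ℝ) * t ^ (K + 1) := h2
        _ = t * ((c (K + 1) : ℝ) * t ^ K) := by rw [pow_succ]; ring
    exact le_of_mul_le_mul_left this ht0
  have h4 : (B : ℝ) < (c (K + 1) : ℝ) := by
    have hp : 0 < t ^ K := pow_pos ht0 K
    rw [inv_pow] at hK
    calc (B : ℝ) < (t ^ K)⁻¹ := hK
      _ = 1 * (t ^ K)⁻¹ := (one_mul _).symm
      _ ≤ ((c (K + 1) : ℝ) * t ^ K) * (t ^ K)⁻¹ := mul_le_mul_of_nonneg_right h3 (inv_nonneg.2 hp.le)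
      _ = (c (K + 1) : ℝ) := by field_simp
  exact_mod_cast h4

end Pool.Agent.H93.GS

end S_NUM

section S_PD

/-!
ROW PD (70 lines).
* `unb`: `NUM_main` with `c = cc p (rs S)`, `A = S.map Prod.snd` (`List.map_map`), `cc_zero`, `cc_one`, `star`.
* `step`: let `N = Nk p ∅ D`, a normal subgroup of finite index `B` (`Nk_fin`, `Nk_normal`).  If `N ≤ Nk p (rs S) i` for all `i`, then every `f ∈ V p (rs S) i` is constant on the
  left cosets `x N` (`f (x n) = (Rt n f) x = f x`), so `V p (rs S) i` embeds in the functions `H ⧸ N → ZMod p` and `cc p (rs S) i ≤ B` for all `i`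
  (`LinearMap.finrank_le_finrank_of_injective`, or: the functions `f ∘ QuotientGroup.mk` form a submodule, range of `LinearMap.funLeft`, of finrank `≤ Nat.card (H ⧸ N) = N.index`):
  contradiction with `unb`.  Let `i` be least with `¬ N ≤ Nk p (rs S) i` (`Nat.find`).  For `i ≤ D`: `N ≤ Nk p ∅ i ≤ Nk p (rs S) i` (`Nk_anti`, `Nk_mono`), so `i ≥ D + 1`; minimality:
  `N ≤ Nk p (rs S) (i-1)`.  Choose `w ∈ N`, `w ∉ Nk p (rs S) i`.
-/

set_option autoImplicit false

namespace Pool.Agent.H93.GS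

theorem unb (p : ℕ) [Fact p.Prime] {H : Type} [Group H] [Group.FG H] (d r : ℤ) (hr : 0 ≤ r)
    (hd : GSD p H d r) (S : List (H × ℕ)) (hS : Dp p S) (t : ℝ) (ht0 : 0 < t) (ht1 : t < 1)
    (hneg : 1 - (d : ℝ) * t + (r : ℝ) * t ^ 2 + (S.map (fun q => t ^ q.2)).sum < 0) :
    ∀ B : ℕ, ∃ k, B < cc p (rs S) k := by
  refine NUM_main (cc p (rs S)) d r hr (S.map Prod.snd) ?_ t ht0 ht1 (cc_zero p _) (cc_one p _)
    ?_ ?_
  · intro a ha
    obtain ⟨q, hq, rfl⟩ := List.mem_map.1 ha
    exact (hS q hq).1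
  · intro k hk
    rw [List.map_map]
    exact star p d r hd S hS k hk
  · rw [List.map_map]
    exact hneg

theorem step (p : ℕ) [Fact p.Prime] {H : Type} [Group H] [Group.FG H] (S : List (H × ℕ))
    (hS : Dp p S) (hu : ∀ B : ℕ, ∃ k, B < cc p (rs S) k) (D : ℕ) :
    ∃ (i : ℕ) (w : H), D + 1 ≤ i ∧ w ∈ Nk p (∅ : Set H) D ∧ w ∈ Nk p (rs S) (i - 1) ∧
      w ∉ Nk p (rs S) i := by
  classical
  have hfin : (Nk p (∅ : Set H) D).FiniteIndex := Nk_fin p _ D
  have hb : ∀ i, Nk p (∅ : Set H) D ≤ Nk p (rs S) i →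
      cc p (rs S) i ≤ (Nk p (∅ : Set H) D).index := by
    intro i hi
    haveI : Finite (H ⧸ Nk p (∅ : Set H) D) := Subgroup.finite_quotient_of_finiteIndex
    haveI : Fintype (H ⧸ Nk p (∅ : Set H) D) := Fintype.ofFinite _
    let φ : V p (rs S) i →ₗ[ZMod p] (H ⧸ Nk p (∅ : Set H) D → ZMod p) :=
      (LinearMap.funLeft (ZMod p) (ZMod p)
        (fun q : H ⧸ Nk p (∅ : Set H) D => q.out)).comp (V p (rs S) i).subtype
    have hφ : Function.Injective φ := by
      rw [injective_iff_map_eq_zero]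
      intro f hf
      apply Subtype.ext
      funext x
      have hx : f.1 x = f.1 ((QuotientGroup.mk x : H ⧸ Nk p (∅ : Set H) D).out) := by
        obtain ⟨n, hn⟩ := QuotientGroup.mk_out_eq_mul (Nk p (∅ : Set H) D) x
        rw [hn]
        have h1 : Rt p (n : H) f.1 = f.1 := hi n.2 f.1 f.2
        exact (congrFun h1 x).symm
      rw [hx]
      exact congrFun hf (QuotientGroup.mk x)
    calc cc p (rs S) i ≤ Module.finrank (ZMod p) (H ⧸ Nk p (∅ : Set H) D → ZMod p) :=
          LinearMap.finrank_le_finrank_of_injective hφ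
      _ = (Nk p (∅ : Set H) D).index := by
          rw [Module.finrank_fintype_fun_eq_card, Subgroup.index, Nat.card_eq_fintype_card]
  have hex : ∃ i, ¬ Nk p (∅ : Set H) D ≤ Nk p (rs S) i := by
    by_contra hcon
    push Not at hcon
    obtain ⟨k, hk⟩ := hu (Nk p (∅ : Set H) D).index
    exact absurd (hb k (hcon k)) (by omega)
  have h1 := Nat.find_spec hex
  have h2 : D + 1 ≤ Nat.find hex := by
    by_contra hcon
    exact h1 ((Nk_anti p (∅ : Set H) (by omega)).trans (Nk_mono p (Set.empty_subset _) _))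
  have h3 : Nk p (∅ : Set H) D ≤ Nk p (rs S) (Nat.find hex - 1) := by
    by_contra hcon
    exact Nat.find_min hex (m := Nat.find hex - 1) (by omega) hcon
  obtain ⟨w, hw1, hw2⟩ := SetLike.not_le_iff_exists.1 h1
  exact ⟨Nat.find hex, w, h2, hw1, h3 hw1, hw2⟩

end Pool.Agent.H93.GS

end S_PD

section S_QA

/-!
ROW QA (70 lines).  Adding the relators `w^p` and `v w v⁻¹ w⁻¹` (`v ∈ W`), all of depth `D`.
* `Dp_append`: `w^p` and `v w v⁻¹ w⁻¹` are in the normal subgroup `Nk p ∅ D` (`Nk_normal`).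
* `new_mem`: if `w ∈ Nk p (rs S) (i-1)` and `1 ≤ i` they are in `Nk p (rs S) i` (`pow_mem_Nk`, `comm_mem_Nk` with `a = i - 1`).
* `rs_append`: clear.  `Nk_append`: `V_union`, so `V p (rs (S ++ T)) i = V p (rs S) i`, and `Nk` only depends on `V`.
* `new_sum`: `List.map_append`, `List.sum_append`, all terms of `newR` are `t^D`, there are `W.length + 1`.
-/

set_option autoImplicit false

namespace Pool.Agent.H93.GS

/-- new relators `w^p`, `v w v⁻¹ w⁻¹` for `v ∈ W`, of depth `D` -/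
def newR (p : ℕ) {H : Type} [Group H] (w : H) (D : ℕ) (W : List H) : List (H × ℕ) :=
  (w ^ p, D) :: W.map (fun v => (v * w * v⁻¹ * w⁻¹, D))

theorem QA_mem (p : ℕ) {H : Type} [Group H] (w : H) (D : ℕ) (W : List H) (q : H × ℕ)
    (hq : q ∈ newR p w D W) : q = (w ^ p, D) ∨ ∃ v : H, q = (v * w * v⁻¹ * w⁻¹, D) := by
  unfold newR at hq
  rcases List.mem_cons.1 hq with h | h
  · exact Or.inl h
  · obtain ⟨v, -, hv⟩ := List.mem_map.1 h
    exact Or.inr ⟨v, hv.symm⟩

theorem rs_append {H : Type} (S T : List (H × ℕ)) : rs (S ++ T) = rs S ∪ rs T := by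
  ext x
  unfold rs
  simp only [List.mem_append, Set.mem_setOf_eq, Set.mem_union]
  exact exists_or

theorem Dp_append (p : ℕ) {H : Type} [Group H] (S : List (H × ℕ)) (hS : Dp p S) (w : H)
    (D : ℕ) (hD : 1 ≤ D) (hw : w ∈ Nk p (∅ : Set H) D) (W : List H) :
    Dp p (S ++ newR p w D W) := by
  intro q hq
  rcases List.mem_append.1 hq with h | h
  · exact hS q h
  · rcases QA_mem p w D W q h with rfl | ⟨v, rfl⟩
    · exact ⟨hD, Subgroup.pow_mem _ hw p⟩
    · exact ⟨hD, Subgroup.mul_mem _ ((Nk_normal p (∅ : Set H) D).conj_mem w hw v)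
        (Subgroup.inv_mem _ hw)⟩

theorem new_mem (p : ℕ) {H : Type} [Group H] (S : List (H × ℕ)) (w : H) (D i : ℕ)
    (hi : 1 ≤ i) (hw : w ∈ Nk p (rs S) (i - 1)) (W : List H) (x : H)
    (hx : x ∈ rs (newR p w D W)) : x ∈ Nk p (rs S) i := by
  obtain ⟨a, ha⟩ := hx
  have e : i - 1 + 1 = i := by omega
  rcases QA_mem p w D W (x, a) ha with h | ⟨v, h⟩
  · have h1 : x = w ^ p := congrArg Prod.fst h
    have h2 := pow_mem_Nk p (rs S) (i - 1) w hw
    rw [e] at h2
    rw [h1]
    exact h2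
  · have h1 : x = v * w * v⁻¹ * w⁻¹ := congrArg Prod.fst h
    have h2 := comm_mem_Nk p (rs S) (i - 1) w v hw
    rw [e] at h2
    rw [h1]
    exact h2

theorem Nk_append (p : ℕ) {H : Type} [Group H] (S T : List (H × ℕ)) (i : ℕ)
    (hT : ∀ x ∈ rs T, x ∈ Nk p (rs S) i) : Nk p (rs (S ++ T)) i = Nk p (rs S) i := by
  ext g
  rw [mem_Nk, mem_Nk, rs_append, V_union p (rs S) (rs T) i hT]

theorem new_sum (p : ℕ) {H : Type} [Group H] (S : List (H × ℕ)) (w : H) (D : ℕ) (W : List H)
    (t : ℝ) : ((S ++ newR p w D W).map (fun q => t ^ q.2)).sum =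
      (S.map (fun q => t ^ q.2)).sum + ((W.length : ℝ) + 1) * t ^ D := by
  have h : (W.map (fun _ => t ^ D)).sum = (W.length : ℝ) * t ^ D := by
    rw [List.map_const', List.sum_replicate, nsmul_eq_mul]
  unfold newR
  rw [List.map_append, List.sum_append, List.map_cons, List.sum_cons, List.map_map]
  have h2 : (List.map ((fun q : H × ℕ => t ^ q.2) ∘ fun v => (v * w * v⁻¹ * w⁻¹, D)) W).sum =
      (W.map (fun _ => t ^ D)).sum := rfl
  rw [h2, h]
  ring

end Pool.Agent.H93.GS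

end S_QA

section S_QB

/-!
ROW QB (120 lines).  The infinite construction.
Put `ε = -(1 - d t + r t²)/2 > 0`.  A state is a triple `(S, W, m) : List (H × ℕ) × List H × ℕ`; `P k (S, W, m)`: `Dp p S`, `W.length = k`, `1 ≤ m`, `∑_{q ∈ S} t^{q.2} ≤ ε (1 - (1/2)^k)`.
`P 0 ([], [], 1)`.
Step: given `P k (S, W, m)` choose `D ≥ m` with `(k+1) t^D ≤ ε (1/2)^(k+1)` (`exists_pow_lt_of_lt_one`, or `tendsto_pow_atTop_nhds_zero_of_lt_one`), `unb` holds for `S` (the sum with `hneg` is
`≤ -2ε + ε < 0`), `step` gives `i ≥ D + 1`, `w`.  New state `(S ++ newR p w D W, W ++ [w], i)`: `Dp_append`, `new_sum`; and `w ∉ Nk p (rs (S ++ newR p w D W)) i` by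
`Nk_append` + `new_mem`.
So for all `k` and all states with `P k` there is a next state with `P (k+1)`; build the sequence of states with choice (e.g. sequence in the sigma type / `Nat.rec` on `{s // P k s}`),
let `w k`, `D k` be the chosen data; `W_k = (List.range k).map w` by induction (`List.range_succ`).
-/

set_option autoImplicit false

namespace Pool.Agent.H93.GS

/-- invariant of the construction -/
private def QBP (p : ℕ) {H : Type} [Group H] (t ε : ℝ) (k : ℕ)
    (s : List (H × ℕ) × List H × ℕ) : Prop :=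
  Dp p s.1 ∧ s.2.1.length = k ∧ 1 ≤ s.2.2 ∧
    (s.1.map (fun q => t ^ q.2)).sum ≤ ε * (1 - (1 / 2) ^ k)

private theorem QB_step (p : ℕ) [Fact p.Prime] {H : Type} [Group H] [Group.FG H] (d r : ℤ)
    (hr : 0 ≤ r) (hd : GSD p H d r) (t : ℝ) (ht0 : 0 < t) (ht1 : t < 1) (ε : ℝ) (hε : 0 < ε)
    (hneg : 1 - (d : ℝ) * t + (r : ℝ) * t ^ 2 = -(2 * ε)) (k : ℕ)
    (s : List (H × ℕ) × List H × ℕ) (hs : QBP p t ε k s) :
    ∃ (w : H) (D : ℕ) (s' : List (H × ℕ) × List H × ℕ),
      1 ≤ D ∧ s.2.2 ≤ D ∧ D + 1 ≤ s'.2.2 ∧ w ∈ Nk p (∅ : Set H) D ∧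
      w ∉ Nk p (rs s'.1) s'.2.2 ∧ s'.1 = s.1 ++ newR p w D s.2.1 ∧ s'.2.1 = s.2.1 ++ [w] ∧
      QBP p t ε (k + 1) s' := by
  obtain ⟨S, W, m⟩ := s
  obtain ⟨h1, h2, h3, h4⟩ := hs
  simp only at h1 h2 h3 h4 ⊢
  have hk : (0 : ℝ) < (k : ℝ) + 1 := by positivity
  have hpos : 0 < ε * (1 / 2) ^ (k + 1) / ((k : ℝ) + 1) := by positivity
  obtain ⟨n0, hn0⟩ := exists_pow_lt_of_lt_one hpos ht1
  obtain ⟨D, hD⟩ : ∃ D, D = max m n0 := ⟨_, rfl⟩
  have hmD : m ≤ D := by rw [hD]; exact le_max_left _ _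
  have hnD : n0 ≤ D := by rw [hD]; exact le_max_right _ _
  have htD : ((k : ℝ) + 1) * t ^ D ≤ ε * (1 / 2) ^ (k + 1) := by
    have e1 : t ^ D ≤ t ^ n0 := pow_le_pow_of_le_one ht0.le ht1.le hnD
    have e2 := e1.trans hn0.le
    rw [le_div_iff₀ hk] at e2
    linarith
  have hp1 : (0 : ℝ) < (1 / 2) ^ k := by positivity
  have hu := unb p d r hr hd S h1 t ht0 ht1 (by
    have e3 : ε * (1 - (1 / 2) ^ k) ≤ ε := by
      have := mul_pos hε hp1
      linarith
    linarith)
  obtain ⟨i, w, hi, hw1, hw2, hw3⟩ := step p S h1 hu D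
  refine ⟨w, D, (S ++ newR p w D W, W ++ [w], i), by omega, hmD, hi, hw1, ?_, rfl, rfl, ?_⟩
  · simp only
    rw [Nk_append p S (newR p w D W) i
      (fun x hx => new_mem p S w D i (by omega) hw2 W x hx)]
    exact hw3
  · refine ⟨Dp_append p S h1 w D (by omega) hw1 W, ?_, ?_, ?_⟩
    · simp [h2]
    · show 1 ≤ i
      omega
    · show ((S ++ newR p w D W).map (fun q => t ^ q.2)).sum ≤ _
      rw [new_sum, h2]
      have e4 : ((1 : ℝ) / 2) ^ k = 2 * (1 / 2) ^ (k + 1) := by
        rw [pow_succ]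
        ring
      rw [e4] at h4
      have e5 : ε * (1 - 2 * (1 / 2) ^ (k + 1)) + ε * (1 / 2) ^ (k + 1) =
          ε * (1 - (1 / 2) ^ (k + 1)) := by ring
      linarith

theorem QB_main (p : ℕ) [Fact p.Prime] {H : Type} [Group H] [Group.FG H] (d r : ℤ)
    (hr : 0 ≤ r) (hd : GSD p H d r) (t : ℝ) (ht0 : 0 < t) (ht1 : t < 1)
    (hneg : 1 - (d : ℝ) * t + (r : ℝ) * t ^ 2 < 0) :
    ∃ (S : ℕ → List (H × ℕ)) (w : ℕ → H) (D m : ℕ → ℕ),
      (∀ k, 1 ≤ D k) ∧ (∀ k, m k ≤ D k) ∧ (∀ k, D k + 1 ≤ m (k + 1)) ∧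
      (∀ k, w k ∈ Nk p (∅ : Set H) (D k)) ∧
      (∀ k, w k ∉ Nk p (rs (S (k + 1))) (m (k + 1))) ∧
      (∀ k, S (k + 1) = S k ++ newR p (w k) (D k) ((List.range k).map w)) := by
  obtain ⟨ε, hεd⟩ : ∃ ε, ε = -(1 - (d : ℝ) * t + (r : ℝ) * t ^ 2) / 2 := ⟨_, rfl⟩
  have hε : 0 < ε := by rw [hεd]; linarith
  have hneg' : 1 - (d : ℝ) * t + (r : ℝ) * t ^ 2 = -(2 * ε) := by rw [hεd]; ring
  choose w D s' a1 a2 a3 a4 a5 a6 a7 a8 using
    QB_step p d r hr hd t ht0 ht1 ε hε hneg'
  have h0 : QBP p t ε 0 (([], [], 1) : List (H × ℕ) × List H × ℕ) := by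
    refine ⟨?_, rfl, le_rfl, ?_⟩
    · intro q hq
      simp at hq
    · simp
  let seq : (k : ℕ) → {s : List (H × ℕ) × List H × ℕ // QBP p t ε k s} := fun k =>
    Nat.rec (motive := fun k => {s : List (H × ℕ) × List H × ℕ // QBP p t ε k s})
      ⟨([], [], 1), h0⟩ (fun k s => ⟨s' k s.1 s.2, a8 k s.1 s.2⟩) k
  have hseq : ∀ k, (seq (k + 1)).1 = s' k (seq k).1 (seq k).2 := fun k => rfl
  have hW : ∀ k, (seq k).1.2.1 = (List.range k).map (fun j => w j (seq j).1 (seq j).2) := by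
    intro k
    induction k with
    | zero => rfl
    | succ k ih =>
      rw [hseq, a7, ih, List.range_succ, List.map_append]
      rfl
  refine ⟨fun k => (seq k).1.1, fun k => w k (seq k).1 (seq k).2,
    fun k => D k (seq k).1 (seq k).2, fun k => (seq k).1.2.2, ?_, ?_, ?_, ?_, ?_, ?_⟩
  · exact fun k => a1 k _ _
  · exact fun k => a2 k _ _
  · exact fun k => a3 k _ _
  · exact fun k => a4 k _ _
  · exact fun k => a5 k _ _
  · intro k
    show (seq (k + 1)).1.1 = _
    rw [hseq, a6, hW]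

end Pool.Agent.H93.GS

end S_QB

section S_QC

/-!
ROW QC (110 lines).  The quotient with an infinite elementary abelian subgroup.
From `QB_main`: `S, w, D, m`.  `m` is increasing, `m (k+1) ≤ D l` for `l > k` (`m (k+1) ≤ m l ≤ D l`).  `T = ⋃ k, rs (S k)`, `N = Subgroup.normalClosure T`.
* `w i ^ p ∈ rs (S (i+1)) ⊆ N`.  For `i < j`: `w i * w j * (w i)⁻¹ * (w j)⁻¹ ∈ rs (S (j+1)) ⊆ N` (`w i` is in the list `(List.range j).map w`).  For `i > j` it is the inverse of the one for
  `(j, i)`, for `i = j` it is `1`.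
* Fix `k`, `i = m (k+1)`.  Every element of `rs (S l)`, for any `l`, is in `rs (S (k+1))` or in `Nk p ∅ i`: if `l ≤ k+1` then `rs (S l) ⊆ rs (S (k+1))`; the new relators at a stage
  `l ≥ k+1` are in `Nk p ∅ (D l) ≤ Nk p ∅ i` (`Nk_normal`, `Nk_anti`).  So `T ⊆ rs (S (k+1)) ∪ T'`, `rs (S (k+1)) ∪ T' = T` with `T' = T ∩ Nk p ∅ i ⊆ Nk p (rs (S (k+1))) i`
  (`Nk_mono`), hence `V p T i = V p (rs (S (k+1))) i` (`V_union`) and `Nk p T i = Nk p (rs (S (k+1))) i`: `w k ∉ Nk p T i`.
* `N ≤ Nk p T i` (`mem_Nk_of_mem`, `Nk_normal`, `Subgroup.normalClosure_le_normal`).  For `l > k`: `w l ∈ Nk p ∅ (D l) ≤ Nk p ∅ i ≤ Nk p T i`.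
  If `(w k)⁻¹ * w l ∈ N` then `w k = w l * ((w k)⁻¹ * w l)⁻¹ ∈ Nk p T i`, contradiction.
-/

set_option autoImplicit false

namespace Pool.Agent.H93.GS

theorem QC_mono (p : ℕ) {H : Type} [Group H] (S : ℕ → List (H × ℕ)) (w : ℕ → H) (D : ℕ → ℕ)
    (hS : ∀ k, S (k + 1) = S k ++ newR p (w k) (D k) ((List.range k).map w)) :
    Monotone (fun l => rs (S l)) := by
  refine monotone_nat_of_le_succ (fun l => ?_)
  show rs (S l) ≤ rs (S (l + 1))
  rw [hS l, rs_append]
  exact Set.subset_union_left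

theorem QC_new (p : ℕ) {H : Type} [Group H] (w : H) (D : ℕ) (W : List H)
    (hw : w ∈ Nk p (∅ : Set H) D) (x : H) (hx : x ∈ rs (newR p w D W)) :
    x ∈ Nk p (∅ : Set H) D := by
  obtain ⟨a, ha⟩ := hx
  have hn := Nk_normal p (∅ : Set H) D
  unfold newR at ha
  rw [List.mem_cons] at ha
  rcases ha with ha | ha
  · have h1 : x = w ^ p := congrArg Prod.fst ha
    rw [h1]
    exact Subgroup.pow_mem _ hw p
  · rw [List.mem_map] at ha
    obtain ⟨v, _, hva⟩ := ha
    have h1 : v * w * v⁻¹ * w⁻¹ = x := congrArg Prod.fst hva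
    rw [← h1]
    exact Subgroup.mul_mem _ (hn.conj_mem _ hw v) (Subgroup.inv_mem _ hw)

theorem QC_rs (p : ℕ) {H : Type} [Group H] (S : ℕ → List (H × ℕ)) (w : ℕ → H) (D m : ℕ → ℕ)
    (hmD : ∀ k, m k ≤ D k) (hm : Monotone m)
    (hw1 : ∀ k, w k ∈ Nk p (∅ : Set H) (D k))
    (hS : ∀ k, S (k + 1) = S k ++ newR p (w k) (D k) ((List.range k).map w)) (k l : ℕ) (x : H)
    (hx : x ∈ rs (S l)) : x ∈ rs (S (k + 1)) ∨ x ∈ Nk p (∅ : Set H) (m (k + 1)) := by
  rcases le_total l (k + 1) with h | h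
  · left
    exact QC_mono p S w D hS h hx
  · revert x
    induction l, h using Nat.le_induction with
    | base => intro x hx; left; exact hx
    | succ l hl ih =>
      intro x hx
      rw [hS l, rs_append] at hx
      rcases hx with hx | hx
      · exact ih x hx
      · right
        have h1 : m (k + 1) ≤ D l := le_trans (hm hl) (hmD l)
        exact Nk_anti p (∅ : Set H) h1 (QC_new p (w l) (D l) _ (hw1 l) x hx)

theorem thmA (p : ℕ) [Fact p.Prime] {H : Type} [Group H] [Group.FG H] (d r : ℤ)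
    (hr : 0 ≤ r) (hd : GSD p H d r) (t : ℝ) (ht0 : 0 < t) (ht1 : t < 1)
    (hneg : 1 - (d : ℝ) * t + (r : ℝ) * t ^ 2 < 0) :
    ∃ (N : Subgroup H) (w : ℕ → H), N.Normal ∧ (∀ i, w i ^ p ∈ N) ∧
      (∀ i j, w i * w j * (w i)⁻¹ * (w j)⁻¹ ∈ N) ∧ ∀ k l, k < l → (w k)⁻¹ * w l ∉ N := by
  obtain ⟨S, w, D, m, hD, hmD, hDm, hw1, hw2, hS⟩ := QB_main p d r hr hd t ht0 ht1 hneg
  have hm : Monotone m := monotone_nat_of_le_succ (fun n => by
    have h1 := hmD n
    have h2 := hDm n
    omega)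
  obtain ⟨T, hT⟩ : ∃ T : Set H, T = ⋃ k, rs (S k) := ⟨_, rfl⟩
  have hmemT : ∀ l x, x ∈ rs (S l) → x ∈ Subgroup.normalClosure T := by
    intro l x hx
    refine Subgroup.subset_normalClosure ?_
    rw [hT]
    exact Set.mem_iUnion.2 ⟨l, hx⟩
  have hcomm : ∀ i j, i < j → w i * w j * (w i)⁻¹ * (w j)⁻¹ ∈ Subgroup.normalClosure T := by
    intro i j hij
    refine hmemT (j + 1) _ ?_
    rw [hS j, rs_append]
    right
    refine ⟨D j, ?_⟩
    unfold newR
    rw [List.mem_cons]
    right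
    rw [List.mem_map]
    exact ⟨w i, List.mem_map.2 ⟨i, List.mem_range.2 hij, rfl⟩, rfl⟩
  refine ⟨Subgroup.normalClosure T, w, Subgroup.normalClosure_normal, ?_, ?_, ?_⟩
  · intro i
    refine hmemT (i + 1) _ ?_
    rw [hS i, rs_append]
    right
    refine ⟨D i, ?_⟩
    unfold newR
    exact List.mem_cons_self
  · intro i j
    rcases lt_trichotomy i j with h | h | h
    · exact hcomm i j h
    · subst h
      have h1 : w i * w i * (w i)⁻¹ * (w i)⁻¹ = 1 := by group
      rw [h1]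
      exact Subgroup.one_mem _
    · have h1 : w i * w j * (w i)⁻¹ * (w j)⁻¹ = (w j * w i * (w j)⁻¹ * (w i)⁻¹)⁻¹ := by group
      rw [h1]
      exact Subgroup.inv_mem _ (hcomm j i h)
  · intro k l hkl hN
    have hU : rs (S (k + 1)) ∪ (T ∩ (Nk p (∅ : Set H) (m (k + 1)) : Set H)) = T := by
      refine Set.Subset.antisymm ?_ ?_
      · refine Set.union_subset ?_ Set.inter_subset_left
        rw [hT]
        exact Set.subset_iUnion (fun k => rs (S k)) (k + 1)
      · intro x hx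
        have hx' := hx
        rw [hT, Set.mem_iUnion] at hx'
        obtain ⟨l', hl'⟩ := hx'
        rcases QC_rs p S w D m hmD hm hw1 hS k l' x hl' with h | h
        · left; exact h
        · right; exact ⟨hx, h⟩
    have hV : V p T (m (k + 1)) = V p (rs (S (k + 1))) (m (k + 1)) := by
      have h1 := V_union p (rs (S (k + 1))) (T ∩ (Nk p (∅ : Set H) (m (k + 1)) : Set H))
        (m (k + 1)) (fun t ht => Nk_mono p (Set.empty_subset _) (m (k + 1)) ht.2)
      rw [hU] at h1
      exact h1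
    have hNk : Nk p T (m (k + 1)) = Nk p (rs (S (k + 1))) (m (k + 1)) := by
      ext g
      rw [mem_Nk, mem_Nk, hV]
    have hle : Subgroup.normalClosure T ≤ Nk p T (m (k + 1)) := by
      have hn := Nk_normal p T (m (k + 1))
      exact Subgroup.normalClosure_le_normal (fun s hs => mem_Nk_of_mem p T (m (k + 1)) s hs)
    have hwl : w l ∈ Nk p T (m (k + 1)) := by
      have h1 : m (k + 1) ≤ D l := le_trans (hm hkl) (hmD l)
      exact Nk_mono p (Set.empty_subset _) (m (k + 1)) (Nk_anti p (∅ : Set H) h1 (hw1 l))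
    have hwk : w k ∈ Nk p T (m (k + 1)) := by
      have h1 : w k = w l * ((w k)⁻¹ * w l)⁻¹ := by group
      rw [h1]
      exact Subgroup.mul_mem _ hwl (Subgroup.inv_mem _ (hle hN))
    rw [hNk] at hwk
    exact hw2 k hwk

end Pool.Agent.H93.GS

end S_QC

section S_QD

/-!
ROW QD (80 lines).  The conclusion of `thmA` contradicts the finiteness of elementary abelian sections.
In `Q = H ⧸ N` the images `u i` of `w i` commute pairwise and satisfy `u i ^ p = 1`.  `A = Subgroup.closure (Set.range u)`: any two elements of `A` commute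
(`Subgroup.closure_induction₂`, or `Subgroup.closureCommGroupOfComm`) and `a ^ p = 1` for `a ∈ A` (`Subgroup.closure_induction`, `Commute.mul_pow`).
Let `K = A.comap (QuotientGroup.mk' N)`, `L = N`: `L ≤ K`, `x ^ p ∈ N` for `x ∈ K`, commutators of elements of `K` are in `N` (`QuotientGroup.eq_one_iff`).
By `hF`: `N.relIndex K ≠ 0`, so `K ⧸ N.subgroupOf K` is finite, but the classes of the `w i ∈ K` are pairwise different: `(w k)⁻¹ * w l ∉ N` for `k < l` (an injection of `ℕ` into a finite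
type, `not_injective_infinite_finite`).
-/

set_option autoImplicit false

namespace Pool.Agent.H93.GS

theorem QD_main (p : ℕ) {H : Type} [Group H] (hF : FiniteSections p H) (N : Subgroup H)
    (hN : N.Normal) (w : ℕ → H) (h1 : ∀ i, w i ^ p ∈ N)
    (h2 : ∀ i j, w i * w j * (w i)⁻¹ * (w j)⁻¹ ∈ N)
    (h3 : ∀ k l, k < l → (w k)⁻¹ * w l ∉ N) : False := by
  haveI := hN
  let q : H →* H ⧸ N := QuotientGroup.mk' N
  have hq : ∀ x, q x = 1 ↔ x ∈ N := fun x => QuotientGroup.eq_one_iff x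
  have hu : ∀ x ∈ Set.range (fun i => q (w i)), ∀ y ∈ Set.range (fun i => q (w i)),
      x * y = y * x := by
    rintro _ ⟨i, rfl⟩ _ ⟨j, rfl⟩
    have h := (hq _).2 (h2 i j)
    rw [map_mul, map_mul, map_mul, map_inv, map_inv] at h
    exact (mul_inv_eq_iff_eq_mul.1 (mul_inv_eq_one.1 h))
  let A : Subgroup (H ⧸ N) := Subgroup.closure (Set.range (fun i => q (w i)))
  have hA : ∀ x ∈ A, ∀ y ∈ A, x * y = y * x := by
    intro x hx y hy
    have h := (Subgroup.isMulCommutative_closure hu)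
    exact congrArg Subtype.val (h.is_comm.comm (⟨x, hx⟩ : A) ⟨y, hy⟩)
  have hAp : ∀ x ∈ A, x ^ p = 1 := by
    intro x hx
    induction hx using Subgroup.closure_induction with
    | mem x hx =>
      obtain ⟨i, rfl⟩ := hx
      rw [← map_pow]
      exact (hq _).2 (h1 i)
    | one => exact one_pow p
    | mul x y hx hy ihx ihy =>
      have hc : Commute x y := hA x hx y hy
      rw [hc.mul_pow, ihx, ihy, mul_one]
    | inv x hx ih => rw [inv_pow, ih, inv_one]
  let K : Subgroup H := A.comap q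
  have hLK : N ≤ K := by
    intro x hx
    change q x ∈ A
    rw [(hq x).2 hx]
    exact one_mem A
  have hfin := hF K N hLK (fun x hx => by
    rw [← hq, map_pow]
    exact hAp _ hx) (fun x hx y hy => by
    rw [← hq, map_mul, map_mul, map_mul, map_inv, map_inv, hA _ hx _ hy, mul_inv_cancel_right,
      mul_inv_cancel])
  have hfi : (N.subgroupOf K).FiniteIndex := ⟨hfin⟩
  have hwK : ∀ i, w i ∈ K := fun i => Subgroup.subset_closure ⟨i, rfl⟩
  have hinj : Function.Injective (fun i : ℕ => ((⟨w i, hwK i⟩ : K) : K ⧸ N.subgroupOf K)) := by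
    intro k l hkl
    have h := QuotientGroup.eq.1 hkl
    have h' : (w k)⁻¹ * w l ∈ N := h
    rcases lt_trichotomy k l with hlt | heq | hgt
    · exact absurd h' (h3 k l hlt)
    · exact heq
    · refine absurd ?_ (h3 l k hgt)
      have := N.inv_mem h'
      rwa [mul_inv_rev, inv_inv] at this
  exact not_injective_infinite_finite _ hinj

end Pool.Agent.H93.GS

end S_QD

section S_QE

/-!
ROW QE (80 lines).
* `sec_sub`: for `K L : Subgroup H` take `K.map H.subtype`, `L.map H.subtype` (`Subgroup.relIndex_map_subtype`-like, `Subgroup.relIndex_comap`; in the worst case: the map of cosets).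
* `sec_noeth`: every subgroup of `G` is finitely generated (`WellFoundedGT (Subgroup G)`: `CompleteLattice.WellFoundedGT.isSupFiniteCompact`..., `Subgroup.fg_iff_compact`-like;
  or directly: the family of f.g. subgroups of `K` has a maximal element, it is `K`).  So `K` is f.g., hence `Q = K ⧸ L.subgroupOf K` is f.g.; `L.subgroupOf K` is normal and
  `Q` is commutative (commutators in `L`), of exponent `p`, so it is a finitely generated torsion commutative group: finite (`CommGroup.finite_of_fg_torsion`), the index is not `0`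
  (`Subgroup.relIndex`, `Subgroup.index_ne_zero_of_finite`).
-/

set_option autoImplicit false

namespace Pool.Agent.H93.GS

theorem sec_sub (p : ℕ) {G : Type} [Group G] (hG : FiniteSections p G) (H : Subgroup G) :
    FiniteSections p H := by
  intro K L hLK hp hc
  have hinj : Function.Injective H.subtype := H.subtype_injective
  have h1 := hG (K.map H.subtype) (L.map H.subtype) (Subgroup.map_mono hLK) ?_ ?_
  · rwa [Subgroup.relIndex_map_map_of_injective _ _ hinj] at h1
  · rintro _ ⟨x, hx, rfl⟩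
    exact ⟨x ^ p, hp x hx, map_pow _ _ _⟩
  · rintro _ ⟨x, hx, rfl⟩ _ ⟨y, hy, rfl⟩
    exact ⟨x * y * x⁻¹ * y⁻¹, hc x hx y hy, by simp⟩

theorem QE_fg {G : Type} [Group G] (hG : WellFoundedGT (Subgroup G)) (K : Subgroup G) : K.FG := by
  obtain ⟨P, ⟨hP1, hP2⟩, hmax⟩ := hG.wf.has_min {P : Subgroup G | P.FG ∧ P ≤ K}
    ⟨⊥, Subgroup.FG.bot, bot_le⟩
  have hPK : P = K := by
    apply le_antisymm hP2
    intro x hx
    by_contra hxP
    have h1 : P ⊔ Subgroup.zpowers x ∈ {P : Subgroup G | P.FG ∧ P ≤ K} := by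
      refine ⟨hP1.sup ⟨{x}, ?_⟩, sup_le hP2 ?_⟩
      · rw [Finset.coe_singleton, Subgroup.zpowers_eq_closure]
      · rw [Subgroup.zpowers_le]
        exact hx
    apply hmax _ h1
    refine lt_of_le_of_ne le_sup_left fun h2 => hxP ?_
    rw [h2]
    exact (le_sup_right : Subgroup.zpowers x ≤ P ⊔ Subgroup.zpowers x) (Subgroup.mem_zpowers x)
  rw [← hPK]
  exact hP1

theorem sec_noeth (p : ℕ) [Fact p.Prime] {G : Type} [Group G] (hG : WellFoundedGT (Subgroup G)) :
    FiniteSections p G := by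
  intro K L hLK hp hc
  have hn : (L.subgroupOf K).Normal := by
    constructor
    intro x hx y
    rw [Subgroup.mem_subgroupOf] at hx ⊢
    have h1 := hc y y.2 x x.2
    have h2 := L.mul_mem h1 hx
    simpa using h2
  have hfgK : Group.FG K := (Group.fg_iff_subgroup_fg K).2 (QE_fg hG K)
  have hfgQ : Group.FG (K ⧸ L.subgroupOf K) :=
    Group.fg_of_surjective (QuotientGroup.mk'_surjective (L.subgroupOf K))
  have hcomm : ∀ a b : K ⧸ L.subgroupOf K, a * b = b * a := by
    intro a b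
    obtain ⟨x, rfl⟩ := QuotientGroup.mk'_surjective (L.subgroupOf K) a
    obtain ⟨y, rfl⟩ := QuotientGroup.mk'_surjective (L.subgroupOf K) b
    have h1 : x * y * x⁻¹ * y⁻¹ ∈ L.subgroupOf K := by
      rw [Subgroup.mem_subgroupOf]
      exact hc x x.2 y y.2
    have h2 : QuotientGroup.mk' (L.subgroupOf K) (x * y * x⁻¹ * y⁻¹) = 1 :=
      (QuotientGroup.eq_one_iff _).2 h1
    rw [map_mul, map_mul, map_mul, map_inv, map_inv, mul_inv_eq_one, mul_inv_eq_iff_eq_mul] at h2
    exact h2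
  have htor : ∀ a : K ⧸ L.subgroupOf K, a ^ p = 1 := by
    intro a
    obtain ⟨x, rfl⟩ := QuotientGroup.mk'_surjective (L.subgroupOf K) a
    rw [← map_pow]
    refine (QuotientGroup.eq_one_iff _).2 ?_
    rw [Subgroup.mem_subgroupOf]
    exact hp x x.2
  letI : CommGroup (K ⧸ L.subgroupOf K) :=
    { (inferInstance : Group (K ⧸ L.subgroupOf K)) with mul_comm := hcomm }
  have hp0 : 0 < p := (Fact.out : p.Prime).pos
  have hfin : Finite (K ⧸ L.subgroupOf K) :=
    CommGroup.finite_of_fg_isMulTorsion _ (fun a => isOfFinOrder_iff_pow_eq_one.2 ⟨p, hp0, htor a⟩)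
  exact Subgroup.index_ne_zero_of_finite

end Pool.Agent.H93.GS

end S_QE
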