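import Mathlib
import Pool.Agent.H93.GSM.A

/-! Reverse Golod-Shafarevich inequality, part B (joined modules). -/

section S_DefsB

/-!
Coinduced representations.
-/

set_option autoImplicit false

namespace Pool.Agent.H93.GS

/-- functions `φ : G → M` with `φ (h g) = ρ h (φ g)` for `h ∈ H` -/
def CoI (p : ℕ) {G : Type} [Group G] (H : Subgroup G) {M : Type} [AddCommGroup M]
    [Module (ZMod p) M] (ρ : Representation (ZMod p) H M) : Submodule (ZMod p) (G → M) where
  carrier := {φ | ∀ (h : H) (g : G), φ ((h : G) * g) = ρ h (φ g)}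
  add_mem' := by
    intro a b ha hb h g
    simp only [Pi.add_apply, map_add]
    rw [ha h g, hb h g]
  zero_mem' := by
    intro h g
    simp
  smul_mem' := by
    intro c a ha h g
    simp only [Pi.smul_apply, map_smul]
    rw [ha h g]

lemma mem_CoI (p : ℕ) {G : Type} [Group G] (H : Subgroup G) {M : Type} [AddCommGroup M]
    [Module (ZMod p) M] (ρ : Representation (ZMod p) H M) (φ : G → M) :
    φ ∈ CoI p H ρ ↔ ∀ (h : H) (g : G), φ ((h : G) * g) = ρ h (φ g) := Iff.rfl

/-- right translation on `CoI` -/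
def coR (p : ℕ) {G : Type} [Group G] (H : Subgroup G) {M : Type} [AddCommGroup M]
    [Module (ZMod p) M] (ρ : Representation (ZMod p) H M) :
    Representation (ZMod p) G (CoI p H ρ) where
  toFun g := (LinearMap.funLeft (ZMod p) M (fun x => x * g)).restrict (fun φ hφ h x => by
    have := hφ h (x * g)
    rw [← mul_assoc] at this
    exact this)
  map_one' := by
    apply LinearMap.ext
    intro φ
    apply Subtype.ext
    funext x
    show φ.1 (x * 1) = φ.1 x
    rw [mul_one]
  map_mul' a b := by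
    apply LinearMap.ext
    intro φ
    apply Subtype.ext
    funext x
    show φ.1 (x * (a * b)) = φ.1 (x * a * b)
    rw [mul_assoc]

lemma coR_apply (p : ℕ) {G : Type} [Group G] (H : Subgroup G) {M : Type} [AddCommGroup M]
    [Module (ZMod p) M] (ρ : Representation (ZMod p) H M) (g : G) (φ : CoI p H ρ) (x : G) :
    (coR p H ρ g φ).1 x = φ.1 (x * g) := rfl

end Pool.Agent.H93.GS

end S_DefsB

section S_BA

/-!
ROW BA (110 lines).  Dimension of the coinduced representation.  Let `Q = Quotient (QuotientGroup.rightRel H)` (right cosets `H g`; finite with `H.index` elements: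
`QuotientGroup.card_quotient_rightRel`, `Subgroup.index`, or `QuotientGroup.quotientRightRelEquivQuotientLeftRel`), `s q = q.out`.  For `g : G` put `h g = g * (s [g])⁻¹ ∈ H`.
* `CoI_equiv`: `φ ↦ (q ↦ φ (s q))` is a linear equivalence `CoI p H ρ ≃ (Q → M)`, inverse `ψ ↦ (g ↦ ρ (h g) (ψ [g]))`; for `k ∈ H`: `[k g] = [g]`, `h (k g) = k * h g`.
* `CoI_fin`, `CoI_finrank`: `Module.finrank_pi_fintype`/`Module.finrank_fintype_fun_eq_card`-like: `finrank (Q → M) = card Q * finrank M`.
* `CoI_surj`: given `ψ ∈ CoI σ`, choose `φ` with `φ (s q) ∈ π⁻¹ (ψ (s q))` by the equivalence; then `π (φ g) = π (ρ (h g) (φ (s [g]))) = σ (h g) (ψ (s [g])) = ψ g`.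
-/

set_option autoImplicit false

namespace Pool.Agent.H93.GS

private lemma ba_mem {G : Type} [Group G] (H : Subgroup G) (g : G) :
    g * (Quotient.out (Quotient.mk (QuotientGroup.rightRel H) g))⁻¹ ∈ H := by
  have h1 : (QuotientGroup.rightRel H).r
      (Quotient.out (Quotient.mk (QuotientGroup.rightRel H) g)) g :=
    Quotient.exact (Quotient.out_eq (Quotient.mk (QuotientGroup.rightRel H) g))
  exact QuotientGroup.rightRel_apply.1 h1

private lemma ba_mk {G : Type} [Group G] (H : Subgroup G) (k : H) (g : G) :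
    Quotient.mk (QuotientGroup.rightRel H) ((k : G) * g)
      = Quotient.mk (QuotientGroup.rightRel H) g := by
  apply Quotient.sound
  show (QuotientGroup.rightRel H).r ((k : G) * g) g
  refine QuotientGroup.rightRel_apply.2 ?_
  rw [mul_inv_rev, ← mul_assoc, mul_inv_cancel, one_mul]
  exact H.inv_mem k.2

theorem CoI_equiv (p : ℕ) {G : Type} [Group G] (H : Subgroup G) {M : Type} [AddCommGroup M]
    [Module (ZMod p) M] (ρ : Representation (ZMod p) H M) :
    ∃ (Q : Type) (s : Q → G) (e : CoI p H ρ ≃ₗ[ZMod p] (Q → M)), Nat.card Q = H.index ∧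
      (∀ φ q, e φ q = φ.1 (s q)) ∧ ∀ g : G, ∃ (q : Q) (h : H), g = h * s q := by
  classical
  let Q : Type := Quotient (QuotientGroup.rightRel H)
  let mk : G → Q := fun g => Quotient.mk (QuotientGroup.rightRel H) g
  let s : Q → G := fun q => Quotient.out q
  have hmem : ∀ g : G, g * (s (mk g))⁻¹ ∈ H := fun g => ba_mem H g
  have hmk : ∀ (k : H) (g : G), mk ((k : G) * g) = mk g := fun k g => ba_mk H k g
  have hmks : ∀ q : Q, mk (s q) = q := fun q => Quotient.out_eq q
  let hh : G → H := fun g => ⟨g * (s (mk g))⁻¹, hmem g⟩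
  have hhk : ∀ (k : H) (g : G), hh ((k : G) * g) = k * hh g := by
    intro k g
    apply Subtype.ext
    show (k : G) * g * (s (mk ((k : G) * g)))⁻¹ = (k : G) * (g * (s (mk g))⁻¹)
    rw [hmk, mul_assoc]
  have hh1 : ∀ q : Q, hh (s q) = 1 := by
    intro q
    apply Subtype.ext
    show s q * (s (mk (s q)))⁻¹ = 1
    rw [hmks, mul_inv_cancel]
  let F : CoI p H ρ →ₗ[ZMod p] (Q → M) :=
    { toFun := fun φ q => φ.1 (s q)
      map_add' := fun a b => rfl
      map_smul' := fun c a => rfl }
  let inv : (Q → M) → CoI p H ρ := fun ψ => ⟨fun g => ρ (hh g) (ψ (mk g)), by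
    intro k g
    show ρ (hh ((k : G) * g)) (ψ (mk ((k : G) * g))) = ρ k (ρ (hh g) (ψ (mk g)))
    rw [hhk, hmk, map_mul]
    rfl⟩
  refine ⟨Q, s, LinearEquiv.ofBijective F ⟨?_, ?_⟩, ?_, ?_, ?_⟩
  · intro a b hab
    apply Subtype.ext
    funext g
    have h1 : g = ((hh g : H) : G) * s (mk g) := by
      show g = g * (s (mk g))⁻¹ * s (mk g)
      rw [inv_mul_cancel_right]
    rw [h1, a.2 (hh g) (s (mk g)), b.2 (hh g) (s (mk g))]
    exact congrArg _ (congrFun hab (mk g))
  · intro ψ
    refine ⟨inv ψ, ?_⟩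
    funext q
    show ρ (hh (s q)) (ψ (mk (s q))) = ψ q
    rw [hh1, hmks, map_one]
    rfl
  · exact Nat.card_congr (QuotientGroup.quotientRightRelEquivQuotientLeftRel H)
  · intro φ q
    rfl
  · intro g
    refine ⟨mk g, hh g, ?_⟩
    show g = g * (s (mk g))⁻¹ * s (mk g)
    rw [inv_mul_cancel_right]

private lemma ba_finQ {Q : Type} {G : Type} [Group G] (H : Subgroup G) [H.FiniteIndex]
    (h : Nat.card Q = H.index) : Finite Q := by
  apply Nat.finite_of_card_ne_zero
  rw [h]
  exact Subgroup.FiniteIndex.index_ne_zero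

theorem CoI_fin (p : ℕ) {G : Type} [Group G] (H : Subgroup G) [H.FiniteIndex] {M : Type}
    [AddCommGroup M] [Module (ZMod p) M] [Module.Finite (ZMod p) M]
    (ρ : Representation (ZMod p) H M) : Module.Finite (ZMod p) (CoI p H ρ) := by
  obtain ⟨Q, s, e, hc, _, _⟩ := CoI_equiv p H ρ
  haveI : Finite Q := ba_finQ H hc
  haveI := Fintype.ofFinite Q
  exact Module.Finite.equiv e.symm

theorem CoI_finrank (p : ℕ) [Fact p.Prime] {G : Type} [Group G] (H : Subgroup G)
    [H.FiniteIndex] {M : Type} [AddCommGroup M] [Module (ZMod p) M]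
    [Module.Finite (ZMod p) M] (ρ : Representation (ZMod p) H M) :
    Module.finrank (ZMod p) (CoI p H ρ) = H.index * Module.finrank (ZMod p) M := by
  obtain ⟨Q, s, e, hc, _, _⟩ := CoI_equiv p H ρ
  haveI : Finite Q := ba_finQ H hc
  haveI := Fintype.ofFinite Q
  rw [LinearEquiv.finrank_eq e, Module.finrank_pi_fintype, Finset.sum_const, Finset.card_univ,
    smul_eq_mul, ← hc, Nat.card_eq_fintype_card]

theorem CoI_surj (p : ℕ) {G : Type} [Group G] (H : Subgroup G) {M M' : Type}
    [AddCommGroup M] [Module (ZMod p) M] [AddCommGroup M'] [Module (ZMod p) M']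
    (ρ : Representation (ZMod p) H M) (σ : Representation (ZMod p) H M')
    (π : M →ₗ[ZMod p] M') (hπ : Function.Surjective π)
    (hc : ∀ (h : H) (v : M), π (ρ h v) = σ h (π v)) :
    ∃ Φ : CoI p H ρ →ₗ[ZMod p] CoI p H σ, Function.Surjective Φ ∧
      ∀ (g : G) (φ : CoI p H ρ), Φ (coR p H ρ g φ) = coR p H σ g (Φ φ) := by
  let Φ : CoI p H ρ →ₗ[ZMod p] CoI p H σ :=
    { toFun := fun φ => ⟨fun g => π (φ.1 g), by
        intro h g
        show π (φ.1 ((h : G) * g)) = σ h (π (φ.1 g))
        rw [φ.2 h g, hc]⟩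
      map_add' := by
        intro a b
        apply Subtype.ext
        funext g
        show π (a.1 g + b.1 g) = π (a.1 g) + π (b.1 g)
        rw [map_add]
      map_smul' := by
        intro c a
        apply Subtype.ext
        funext g
        show π (c • a.1 g) = c • π (a.1 g)
        rw [map_smul] }
  refine ⟨Φ, ?_, ?_⟩
  · intro ψ
    obtain ⟨Q, s, e, _, he, hs⟩ := CoI_equiv p H ρ
    choose f hf using fun q : Q => hπ (ψ.1 (s q))
    refine ⟨e.symm f, ?_⟩
    apply Subtype.ext
    funext g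
    obtain ⟨q, h, rfl⟩ := hs g
    show π ((e.symm f).1 ((h : G) * s q)) = ψ.1 ((h : G) * s q)
    rw [(e.symm f).2 h (s q), ψ.2 h (s q), hc, ← he, LinearEquiv.apply_symm_apply, hf]
  · intro g φ
    apply Subtype.ext
    funext x
    rfl

end Pool.Agent.H93.GS

end S_BA

section S_BB

/-!
ROW BB (90 lines).  Crossed homomorphisms of a free group.
* `free_ex`: let `α i : Equiv.Perm X` be `v ↦ x i + σ (of i) v` (inverse `v ↦ σ (of i)⁻¹ (v - x i)`), `L = FreeGroup.lift α : FreeGroup (Fin n) →* Equiv.Perm X`, `δ g = L g 0`.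
  Then `L g v = δ g + σ g v` for all `g, v` (the set of such `g` is a subgroup containing the generators: `FreeGroup.induction_on`, or `Subgroup.closure_induction` with
  `FreeGroup.closure_range_of`), so `δ (g h) = L g (L h 0) = L g (δ h) = δ g + σ g (δ h)`.
* `free_ext`: `{g | δ g = δ' g}` contains the generators; use `δ - δ' ∈ Z1` and that its zero set is a subgroup.
* `free_finrank`: `Z1 p σ ≃ₗ (Fin n → X)`.
-/

set_option autoImplicit false

namespace Pool.Agent.H93.GS

/-- the affine permutation of a generator -/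
def BB_perm (p : ℕ) {n : ℕ} {X : Type} [AddCommGroup X] [Module (ZMod p) X]
    (σ : Representation (ZMod p) (FreeGroup (Fin n)) X) (x : Fin n → X) (i : Fin n) :
    Equiv.Perm X where
  toFun v := x i + σ (FreeGroup.of i) v
  invFun v := σ (FreeGroup.of i)⁻¹ (v - x i)
  left_inv v := by
    show σ (FreeGroup.of i)⁻¹ (x i + σ (FreeGroup.of i) v - x i) = v
    rw [add_sub_cancel_left, ← Module.End.mul_apply, ← map_mul, inv_mul_cancel, map_one,
      Module.End.one_apply]
  right_inv v := by
    show x i + σ (FreeGroup.of i) (σ (FreeGroup.of i)⁻¹ (v - x i)) = v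
    rw [← Module.End.mul_apply, ← map_mul, mul_inv_cancel, map_one,
      Module.End.one_apply, add_sub_cancel]

theorem BB_one (p : ℕ) {H : Type} [Group H] {X : Type} [AddCommGroup X] [Module (ZMod p) X]
    (σ : Representation (ZMod p) H X) (δ : H → X) (h : δ ∈ Z1 p σ) : δ 1 = 0 := by
  have h1 := h 1 1
  rw [mul_one, map_one, Module.End.one_apply] at h1
  exact left_eq_add.mp h1

theorem BB_inv (p : ℕ) {H : Type} [Group H] {X : Type} [AddCommGroup X] [Module (ZMod p) X]
    (σ : Representation (ZMod p) H X) (δ : H → X) (h : δ ∈ Z1 p σ) (g : H) :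
    δ g⁻¹ = - σ g⁻¹ (δ g) := by
  have h1 := h g⁻¹ g
  rw [inv_mul_cancel, BB_one p σ δ h] at h1
  exact eq_neg_of_add_eq_zero_left h1.symm

theorem free_ex (p : ℕ) {n : ℕ} {X : Type} [AddCommGroup X] [Module (ZMod p) X]
    (σ : Representation (ZMod p) (FreeGroup (Fin n)) X) (x : Fin n → X) :
    ∃ δ ∈ Z1 p σ, ∀ i, δ (FreeGroup.of i) = x i := by
  let L : FreeGroup (Fin n) →* Equiv.Perm X := FreeGroup.lift (BB_perm p σ x)
  have hL : ∀ g : FreeGroup (Fin n), ∀ v : X, L g v = L g 0 + σ g v := by
    intro g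
    induction g using FreeGroup.induction_on with
    | C1 =>
      intro v
      rw [map_one, map_one, Equiv.Perm.one_apply, Equiv.Perm.one_apply, Module.End.one_apply,
        zero_add]
    | of i =>
      intro v
      have h1 : L (FreeGroup.of i) = BB_perm p σ x i := FreeGroup.lift_apply_of
      show L (FreeGroup.of i) v = L (FreeGroup.of i) 0 + σ (FreeGroup.of i) v
      rw [h1]
      show x i + σ (FreeGroup.of i) v = (x i + σ (FreeGroup.of i) 0) + σ (FreeGroup.of i) v
      rw [map_zero, add_zero]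
    | inv_of i hi =>
      intro v
      have hi' : ∀ v : X, L (FreeGroup.of i) v = L (FreeGroup.of i) 0 + σ (FreeGroup.of i) v := hi
      show L (FreeGroup.of i)⁻¹ v = L (FreeGroup.of i)⁻¹ 0 + σ (FreeGroup.of i)⁻¹ v
      apply (L (FreeGroup.of i)).injective
      rw [hi' (L (FreeGroup.of i)⁻¹ 0 + σ (FreeGroup.of i)⁻¹ v), map_add, ← add_assoc,
        ← hi' (L (FreeGroup.of i)⁻¹ 0), ← Module.End.mul_apply, ← map_mul σ, mul_inv_cancel,
        map_one, Module.End.one_apply, ← Equiv.Perm.mul_apply, ← Equiv.Perm.mul_apply,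
        ← map_mul, mul_inv_cancel, map_one, Equiv.Perm.one_apply, Equiv.Perm.one_apply, zero_add]
    | mul g h hg hh =>
      intro v
      rw [map_mul, map_mul, Equiv.Perm.mul_apply, Equiv.Perm.mul_apply, Module.End.mul_apply,
        hg (L h v), hg (L h 0), hh v, map_add, add_assoc]
  refine ⟨fun g => L g 0, ?_, ?_⟩
  · intro g h
    show L (g * h) 0 = L g 0 + σ g (L h 0)
    rw [map_mul, Equiv.Perm.mul_apply, hL g (L h 0)]
  · intro i
    have h1 : L (FreeGroup.of i) = BB_perm p σ x i := FreeGroup.lift_apply_of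
    show L (FreeGroup.of i) 0 = x i
    rw [h1]
    show x i + σ (FreeGroup.of i) 0 = x i
    rw [map_zero, add_zero]

theorem free_ext (p : ℕ) {n : ℕ} {X : Type} [AddCommGroup X] [Module (ZMod p) X]
    (σ : Representation (ZMod p) (FreeGroup (Fin n)) X) (δ δ' : FreeGroup (Fin n) → X)
    (h : δ ∈ Z1 p σ) (h' : δ' ∈ Z1 p σ) (he : ∀ i, δ (FreeGroup.of i) = δ' (FreeGroup.of i)) :
    δ = δ' := by
  funext g
  induction g using FreeGroup.induction_on with
  | C1 => rw [BB_one p σ δ h, BB_one p σ δ' h']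
  | of i => exact he i
  | inv_of i hi =>
    have hi' : δ (FreeGroup.of i) = δ' (FreeGroup.of i) := hi
    show δ (FreeGroup.of i)⁻¹ = δ' (FreeGroup.of i)⁻¹
    rw [BB_inv p σ δ h, BB_inv p σ δ' h', hi']
  | mul a b ha hb => rw [h a b, h' a b, ha, hb]

/-- evaluation on the generators -/
def BB_ev (p : ℕ) {n : ℕ} {X : Type} [AddCommGroup X] [Module (ZMod p) X]
    (σ : Representation (ZMod p) (FreeGroup (Fin n)) X) : Z1 p σ →ₗ[ZMod p] (Fin n → X) :=
  (LinearMap.funLeft (ZMod p) X FreeGroup.of).comp (Z1 p σ).subtype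

theorem BB_bij (p : ℕ) {n : ℕ} {X : Type} [AddCommGroup X] [Module (ZMod p) X]
    (σ : Representation (ZMod p) (FreeGroup (Fin n)) X) : Function.Bijective (BB_ev p σ) := by
  constructor
  · intro a b hab
    apply Subtype.ext
    exact free_ext p σ a.1 b.1 a.2 b.2 fun i => congrFun hab i
  · intro x
    obtain ⟨δ, h1, h2⟩ := free_ex p σ x
    exact ⟨⟨δ, h1⟩, funext h2⟩

theorem free_fin (p : ℕ) [Fact p.Prime] {n : ℕ} {X : Type} [AddCommGroup X]
    [Module (ZMod p) X] [Module.Finite (ZMod p) X]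
    (σ : Representation (ZMod p) (FreeGroup (Fin n)) X) : Module.Finite (ZMod p) (Z1 p σ) := by
  exact Module.Finite.equiv (LinearEquiv.ofBijective (BB_ev p σ) (BB_bij p σ)).symm

theorem free_finrank (p : ℕ) [Fact p.Prime] {n : ℕ} {X : Type} [AddCommGroup X]
    [Module (ZMod p) X] [Module.Finite (ZMod p) X]
    (σ : Representation (ZMod p) (FreeGroup (Fin n)) X) :
    Module.finrank (ZMod p) (Z1 p σ) = n * Module.finrank (ZMod p) X := by
  rw [(LinearEquiv.ofBijective (BB_ev p σ) (BB_bij p σ)).finrank_eq, Module.finrank_pi_fintype,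
    Finset.sum_const, Finset.card_univ, Fintype.card_fin, smul_eq_mul]

end Pool.Agent.H93.GS

end S_BB

section S_BC

/-!
ROW BC (80 lines).  Crossed homomorphisms of a presented group `G = F / ⟨⟨rel⟩⟩` (`F = FreeGroup (Fin n)`, `f : F → G` surjective with kernel the normal closure of the relators):
composition with `f` is a linear equivalence of `Z1 p σ` with `ZR = {δ ∈ Z1 p (σ.comp f) | ∀ i, δ (rel i) = 0}`.
Injective as `f` is surjective.  Surjective: let `δ ∈ ZR`.  `{g ∈ f.ker | δ g = 0}` is a normal subgroup of `F`: for `g, g'` in it `δ (g g') = δ g + σ (f g) (δ g') = 0`; for `u ∈ F`: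
`δ (u g u⁻¹) = δ u + σ(f u) (δ g + σ (f g) (δ u⁻¹)) = δ u + σ (f u) (δ u⁻¹) = δ (u u⁻¹) = 0` (`f g = 1`); it contains the relators (`f (rel i) = 1`), so `δ = 0` on `f.ker`.
If `f a = f b` then `a = b k`, `k ∈ f.ker`, `δ a = δ b + σ (f b) (δ k) = δ b`.  So `δ = δ' ∘ f`, and `δ'` is in `Z1 p σ`.
-/

set_option autoImplicit false

namespace Pool.Agent.H93.GS

/-- crossed homomorphisms of the free group that kill the relators -/
def ZR (p : ℕ) {n m : ℕ} (rel : Fin m → FreeGroup (Fin n)) {X : Type} [AddCommGroup X]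
    [Module (ZMod p) X] (σ : Representation (ZMod p) (FreeGroup (Fin n)) X) :
    Submodule (ZMod p) (Z1 p σ) where
  carrier := {δ | ∀ i, δ.1 (rel i) = 0}
  add_mem' := by
    intro a b ha hb i
    show a.1 (rel i) + b.1 (rel i) = 0
    rw [ha i, hb i, add_zero]
  zero_mem' := by
    intro i
    rfl
  smul_mem' := by
    intro c a ha i
    show c • a.1 (rel i) = 0
    rw [ha i, smul_zero]

/-- the kernel elements on which a crossed homomorphism vanishes -/
theorem bc_vanish (p : ℕ) {F G : Type} [Group F] [Group G] (f : F →* G) {X : Type}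
    [AddCommGroup X] [Module (ZMod p) X] (σ : Representation (ZMod p) G X) (R : Set F)
    (hk : f.ker = Subgroup.normalClosure R) (δ : F → X)
    (hδ : ∀ g h : F, δ (g * h) = δ g + σ (f g) (δ h)) (hR : ∀ r ∈ R, δ r = 0) :
    ∀ g ∈ f.ker, δ g = 0 := by
  have h1 : δ 1 = 0 := by
    have h := hδ 1 1
    rw [mul_one, map_one, map_one] at h
    have h2 : δ 1 = δ 1 + δ 1 := h
    exact (add_eq_left.1 h2.symm)
  let N : Subgroup F :=
    { carrier := {g | g ∈ f.ker ∧ δ g = 0}
      mul_mem' := by
        rintro a b ⟨ha, ha0⟩ ⟨hb, hb0⟩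
        refine ⟨mul_mem ha hb, ?_⟩
        rw [hδ, ha0, hb0, map_zero, add_zero]
      one_mem' := ⟨one_mem _, h1⟩
      inv_mem' := by
        rintro a ⟨ha, ha0⟩
        refine ⟨inv_mem ha, ?_⟩
        have h := hδ a a⁻¹
        rw [mul_inv_cancel, h1, ha0, zero_add, (MonoidHom.mem_ker).1 ha, map_one] at h
        exact h.symm }
  have hN : N.Normal := by
    constructor
    rintro g ⟨hg, hg0⟩ u
    refine ⟨(MonoidHom.normal_ker f).conj_mem g hg u, ?_⟩
    have hg1 : f g = 1 := (MonoidHom.mem_ker).1 hg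
    have h2 : δ (u * u⁻¹) = δ u + σ (f u) (δ u⁻¹) := hδ u u⁻¹
    rw [mul_inv_cancel, h1] at h2
    rw [mul_assoc, hδ, hδ, hg0, zero_add, hg1, map_one]
    exact h2.symm
  have hle : Subgroup.normalClosure R ≤ N := by
    apply Subgroup.normalClosure_le_normal
    intro r hr
    refine ⟨?_, hR r hr⟩
    rw [hk]
    exact Subgroup.subset_normalClosure hr
  intro g hg
  rw [hk] at hg
  exact (hle hg).2

theorem pres_equiv (p : ℕ) {n m : ℕ} {G : Type} [Group G] (f : FreeGroup (Fin n) →* G)
    (hf : Function.Surjective f) (rel : Fin m → FreeGroup (Fin n))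
    (hk : f.ker = Subgroup.normalClosure (Set.range rel)) {X : Type} [AddCommGroup X]
    [Module (ZMod p) X] (σ : Representation (ZMod p) G X) :
    Nonempty (Z1 p σ ≃ₗ[ZMod p] ZR p rel (σ.comp f)) := by
  have h1 : ∀ δ : Z1 p σ, δ.1 1 = 0 := by
    intro δ
    have h := δ.2 1 1
    rw [mul_one, map_one] at h
    have h2 : δ.1 1 = δ.1 1 + δ.1 1 := h
    exact (add_eq_left.1 h2.symm)
  have hmem : ∀ δ : Z1 p σ, (fun x => δ.1 (f x)) ∈ Z1 p (σ.comp f) := by
    intro δ g h
    show δ.1 (f (g * h)) = δ.1 (f g) + σ (f g) (δ.1 (f h))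
    rw [map_mul]
    exact δ.2 (f g) (f h)
  have hrel : ∀ i, f (rel i) = 1 := by
    intro i
    have : rel i ∈ f.ker := by
      rw [hk]
      exact Subgroup.subset_normalClosure ⟨i, rfl⟩
    exact (MonoidHom.mem_ker).1 this
  let Φ : Z1 p σ →ₗ[ZMod p] ZR p rel (σ.comp f) :=
    { toFun := fun δ => ⟨⟨fun x => δ.1 (f x), hmem δ⟩, by
        intro i
        show δ.1 (f (rel i)) = 0
        rw [hrel i, h1]⟩
      map_add' := by
        intro a b
        rfl
      map_smul' := by
        intro c a
        rfl }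
  refine ⟨LinearEquiv.ofBijective Φ ⟨?_, ?_⟩⟩
  · intro a b hab
    apply Subtype.ext
    funext x
    obtain ⟨y, rfl⟩ := hf x
    have := congrArg (fun z : ZR p rel (σ.comp f) => z.1.1 y) hab
    exact this
  · intro δ
    have hδ : ∀ g h, δ.1.1 (g * h) = δ.1.1 g + σ (f g) (δ.1.1 h) := fun g h => δ.1.2 g h
    have hv := bc_vanish p f σ (Set.range rel) hk δ.1.1 hδ (by
      rintro _ ⟨i, rfl⟩
      exact δ.2 i)
    have hc : ∀ a b, f a = f b → δ.1.1 a = δ.1.1 b := by
      intro a b hab
      have hkk : b⁻¹ * a ∈ f.ker := by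
        rw [MonoidHom.mem_ker, map_mul, map_inv, hab, inv_mul_cancel]
      have h3 := hδ b (b⁻¹ * a)
      rw [mul_inv_cancel_left, hv _ hkk, map_zero, add_zero] at h3
      exact h3
    let s : G → FreeGroup (Fin n) := Function.surjInv hf
    have hs : ∀ x, f (s x) = x := Function.surjInv_eq hf
    refine ⟨⟨fun x => δ.1.1 (s x), ?_⟩, ?_⟩
    · intro g h
      show δ.1.1 (s (g * h)) = δ.1.1 (s g) + σ g (δ.1.1 (s h))
      have h4 : δ.1.1 (s (g * h)) = δ.1.1 (s g * s h) := by
        apply hc
        rw [hs, map_mul, hs, hs]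
      rw [h4, hδ, hs]
    · apply Subtype.ext
      apply Subtype.ext
      funext x
      show δ.1.1 (s (f x)) = δ.1.1 x
      exact hc _ _ (hs _)

end Pool.Agent.H93.GS

end S_BC

section S_BD

/-!
ROW BD (110 lines).  `X → Y` a surjective map of representations of `G`, `x = dim X`, `y = dim Y`:
`dim Z1(G, X) ≥ (n - m)(x - y) + dim Z1(G, Y)`.
Put `ZX = Z1 p (σ.comp f)` (dimension `n x`: `free_finrank`), `ZY = Z1 p (τ.comp f)` (dimension `n y`), `Φ : ZX → ZY`, `δ ↦ π ∘ δ`; `Φ` is surjective: given `ε ∈ ZY` choose `x i` with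
`π (x i) = ε (of i)`, `free_ex`, `free_ext`.  `U = (ZR p rel (τ.comp f)).comap Φ`.
(1) `finrank U = finrank (ker Φ) + finrank (ZR .. τ) = n (x - y) + finrank (Z1 p τ)` (`Φ` restricted to `U → ZR` is surjective with kernel `≅ ker Φ`; rank-nullity; `pres_equiv`,
    `LinearEquiv.finrank_eq`).
(2) `U → (Fin m → ker π)`, `δ ↦ (δ (rel i))_i` has kernel `≅ ZR .. σ`, so `finrank U ≤ m (x - y) + finrank (Z1 p σ)`.
(`finrank (ker π) = x - y` by rank-nullity; all spaces are finite dimensional: `free_fin`.)
-/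

set_option autoImplicit false

namespace Pool.Agent.H93.GS

private lemma BD_rank {K V W U : Type} [Field K] [AddCommGroup V] [Module K V] [AddCommGroup W]
    [Module K W] [Module.Finite K W] [AddCommGroup U] [Module K U] (A : V →ₗ[K] W)
    (B : W →ₗ[K] U) :
    Module.finrank K (LinearMap.range A) ≤
      Module.finrank K (LinearMap.range (B.comp A)) + Module.finrank K (LinearMap.ker B) := by
  have h1 := LinearMap.finrank_range_add_finrank_ker (B.domRestrict (LinearMap.range A))
  have h2 : LinearMap.range (B.domRestrict (LinearMap.range A)) = LinearMap.range (B.comp A) := by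
    rw [LinearMap.range_comp, LinearMap.domRestrict, LinearMap.range_comp, Submodule.range_subtype]
  rw [h2] at h1
  have h3 : Module.finrank K (LinearMap.ker (B.domRestrict (LinearMap.range A))) ≤
      Module.finrank K (LinearMap.ker B) := by
    let j : LinearMap.ker (B.domRestrict (LinearMap.range A)) →ₗ[K] LinearMap.ker B :=
      LinearMap.codRestrict (LinearMap.ker B)
        ((LinearMap.range A).subtype.comp (Submodule.subtype _)) (by
          intro c
          have := c.2
          rw [LinearMap.mem_ker] at this ⊢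
          exact this)
    apply LinearMap.finrank_le_finrank_of_injective (f := j)
    intro a b hab
    have h4 := congrArg Subtype.val hab
    apply Subtype.ext
    apply Subtype.ext
    exact h4
  omega

theorem BD_main (p : ℕ) [Fact p.Prime] {n m : ℕ} {G : Type} [Group G]
    (f : FreeGroup (Fin n) →* G) (hf : Function.Surjective f)
    (rel : Fin m → FreeGroup (Fin n))
    (hk : f.ker = Subgroup.normalClosure (Set.range rel)) {X Y : Type} [AddCommGroup X]
    [Module (ZMod p) X] [Module.Finite (ZMod p) X] [AddCommGroup Y] [Module (ZMod p) Y]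
    [Module.Finite (ZMod p) Y] (σ : Representation (ZMod p) G X)
    (τ : Representation (ZMod p) G Y) (π : X →ₗ[ZMod p] Y) (hπ : Function.Surjective π)
    (hc : ∀ (g : G) (v : X), π (σ g v) = τ g (π v)) :
    ((n : ℤ) - (m : ℤ)) *
          ((Module.finrank (ZMod p) X : ℤ) - (Module.finrank (ZMod p) Y : ℤ)) +
        (Module.finrank (ZMod p) (Z1 p τ) : ℤ) ≤ (Module.finrank (ZMod p) (Z1 p σ) : ℤ) := by
  classical
  have := free_fin p (σ.comp f)
  have := free_fin p (τ.comp f)
  obtain ⟨eX⟩ := pres_equiv p f hf rel hk σ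
  obtain ⟨eY⟩ := pres_equiv p f hf rel hk τ
  -- evaluation at relators
  let RX : Z1 p (σ.comp f) →ₗ[ZMod p] (Fin m → X) :=
    { toFun := fun δ i => δ.1 (rel i)
      map_add' := fun _ _ => rfl
      map_smul' := fun _ _ => rfl }
  let RY : Z1 p (τ.comp f) →ₗ[ZMod p] (Fin m → Y) :=
    { toFun := fun δ i => δ.1 (rel i)
      map_add' := fun _ _ => rfl
      map_smul' := fun _ _ => rfl }
  let Φ : Z1 p (σ.comp f) →ₗ[ZMod p] Z1 p (τ.comp f) :=
    { toFun := fun δ => ⟨fun g => π (δ.1 g), by
        intro g h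
        show π (δ.1 (g * h)) = π (δ.1 g) + τ (f g) (π (δ.1 h))
        rw [δ.2 g h, map_add, ← hc]
        rfl⟩
      map_add' := fun a b => by
        apply Subtype.ext
        funext g
        exact map_add π _ _
      map_smul' := fun a b => by
        apply Subtype.ext
        funext g
        exact map_smul π _ _ }
  have hΦ : Function.Surjective Φ := by
    intro ε
    choose x hx using fun i => hπ (ε.1 (FreeGroup.of i))
    obtain ⟨δ, hδ, hδx⟩ := free_ex p (σ.comp f) x
    refine ⟨⟨δ, hδ⟩, ?_⟩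
    apply Subtype.ext
    apply free_ext p (τ.comp f) _ _ (Φ ⟨δ, hδ⟩).2 ε.2
    intro i
    show π (δ (FreeGroup.of i)) = _
    rw [hδx, hx]
  let P : (Fin m → X) →ₗ[ZMod p] (Fin m → Y) :=
    LinearMap.pi (fun i => π.comp (LinearMap.proj i))
  have hP : Function.Surjective P := by
    intro y
    choose x hx using fun i => hπ (y i)
    refine ⟨x, ?_⟩
    funext i
    exact hx i
  have hcomm : P.comp RX = RY.comp Φ := by
    apply LinearMap.ext
    intro δ
    rfl
  have hrange : LinearMap.range (P.comp RX) = LinearMap.range RY := by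
    rw [hcomm, LinearMap.range_comp, LinearMap.range_eq_top.2 hΦ, Submodule.map_top]
  have h1 := BD_rank RX P
  rw [hrange] at h1
  have h2 := LinearMap.finrank_range_add_finrank_ker RX
  have h3 := LinearMap.finrank_range_add_finrank_ker RY
  have h4 := LinearMap.finrank_range_add_finrank_ker P
  rw [LinearMap.range_eq_top.2 hP, finrank_top] at h4
  rw [free_finrank] at h2 h3
  have hkX : LinearMap.ker RX = ZR p rel (σ.comp f) := by
    ext δ
    rw [LinearMap.mem_ker]
    constructor
    · intro h i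
      exact congrFun h i
    · intro h
      funext i
      exact h i
  have hkY : LinearMap.ker RY = ZR p rel (τ.comp f) := by
    ext δ
    rw [LinearMap.mem_ker]
    constructor
    · intro h i
      exact congrFun h i
    · intro h
      funext i
      exact h i
  rw [hkX, ← eX.finrank_eq] at h2
  rw [hkY, ← eY.finrank_eq] at h3
  rw [Module.finrank_pi_fintype, Module.finrank_pi_fintype] at h4
  simp only [Finset.sum_const, Finset.card_univ, Fintype.card_fin, smul_eq_mul] at h4
  have h1' : (Module.finrank (ZMod p) (LinearMap.range RX) : ℤ) ≤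
      Module.finrank (ZMod p) (LinearMap.range RY) + Module.finrank (ZMod p) (LinearMap.ker P) := by
    exact_mod_cast h1
  have h2' : (Module.finrank (ZMod p) (LinearMap.range RX) : ℤ) +
      Module.finrank (ZMod p) (Z1 p σ) = n * Module.finrank (ZMod p) X := by
    exact_mod_cast h2
  have h3' : (Module.finrank (ZMod p) (LinearMap.range RY) : ℤ) +
      Module.finrank (ZMod p) (Z1 p τ) = n * Module.finrank (ZMod p) Y := by
    exact_mod_cast h3
  have h4' : (m : ℤ) * Module.finrank (ZMod p) Y + Module.finrank (ZMod p) (LinearMap.ker P) =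
      m * Module.finrank (ZMod p) X := by
    exact_mod_cast h4
  linarith [h1', h2', h3', h4', sub_mul (n : ℤ) m ((Module.finrank (ZMod p) X : ℤ) -
    (Module.finrank (ZMod p) Y : ℤ)), mul_sub (n : ℤ) (Module.finrank (ZMod p) X : ℤ)
    (Module.finrank (ZMod p) Y : ℤ), mul_sub (m : ℤ) (Module.finrank (ZMod p) X : ℤ)
    (Module.finrank (ZMod p) Y : ℤ)]

end Pool.Agent.H93.GS

end S_BD

section S_BE

/-!
ROW BE (130 lines).  Shapiro for crossed homomorphisms: `dim Z1(G, CoI M) = dim Z1(H, M) + (j - 1) dim M`, `j = H.index`.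
Let `B = {b : G → M | ∀ h ∈ H, g ∈ G, b (h g) = b h + ρ h (b g)}` (a submodule).
* `Z1 p (coR p H ρ) ≃ B`: `δ ↦ b`, `b g = (δ g) 1`.  `δ (x g) = δ x + x·(δ g)` at `1`: `b (x g) = b x + (δ g) x`, so `(δ g) x = b (x g) - b x`.  `δ 1 = 0`, so `b 1 = 0`, and `δ g ∈ CoI`
  at `x = 1`: `b (h g) - b h = (δ g)(h) = ρ h ((δ g) 1) = ρ h (b g)`.  Conversely for `b ∈ B` put `(δ g) x = b (x g) - b x`; in `CoI`:
  `b (h x g) - b (h x) = ρ h (b (x g) - b x)`; cocycle: `b (x g g') - b x = (b (x g) - b x) + (b (x g g') - b (x g))`.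
* `B ≃ Z1 p ρ × ({q : Q // q ≠ [1]} → M)`, `b ↦ (b|_H, (b (s q))_q)`, with `Q = Quotient (QuotientGroup.rightRel H)`, `s q = q.out` (see BA): `b (h s q) = b h + ρ h (b (s q))`
  and for `q = [1]` `s q ∈ H`, so `b (s q)` is given by `b|_H`.  Inverse: `b g = c h + ρ h (v q)` for `g = h * s q`, `q ≠ [1]`, and `b g = c g` for `g ∈ H`.
  (Instead of the equivalence two injective maps / a short exact sequence are enough.)
* dimension: `Module.finrank_prod`, `card {q // q ≠ [1]} = H.index - 1`, `Z1_fin` (`H` is finitely generated: `Subgroup.fg_of_index_ne_zero`).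
-/

set_option autoImplicit false

namespace Pool.Agent.H93.GS

/-- functions `b` with `b (h g) = b h + ρ h (b g)` for `h ∈ H` -/
def BE_B (p : ℕ) {G : Type} [Group G] (H : Subgroup G) {M : Type} [AddCommGroup M]
    [Module (ZMod p) M] (ρ : Representation (ZMod p) H M) : Submodule (ZMod p) (G → M) where
  carrier := {b | ∀ (h : H) (g : G), b ((h : G) * g) = b (h : G) + ρ h (b g)}
  add_mem' := by
    intro a b ha hb h g
    simp only [Pi.add_apply, map_add]
    rw [ha h g, hb h g]
    abel
  zero_mem' := by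
    intro h g
    simp
  smul_mem' := by
    intro c a ha h g
    simp only [Pi.smul_apply, map_smul]
    rw [ha h g, smul_add]

theorem BE_B_one (p : ℕ) {G : Type} [Group G] (H : Subgroup G) {M : Type} [AddCommGroup M]
    [Module (ZMod p) M] (ρ : Representation (ZMod p) H M) {b : G → M} (hb : b ∈ BE_B p H ρ) :
    b 1 = 0 := by
  have h1 := hb 1 1
  rw [OneMemClass.coe_one, mul_one, map_one, Module.End.one_apply] at h1
  exact left_eq_add.1 h1

/-- evaluation of a crossed homomorphism at `1` -/
def BE_T (p : ℕ) {G : Type} [Group G] (H : Subgroup G) {M : Type} [AddCommGroup M]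
    [Module (ZMod p) M] (ρ : Representation (ZMod p) H M) :
    Z1 p (coR p H ρ) →ₗ[ZMod p] BE_B p H ρ where
  toFun δ := ⟨fun g => (δ.1 g).1 1, by
    intro h g
    show (δ.1 (h * g)).1 1 = (δ.1 h).1 1 + ρ h ((δ.1 g).1 1)
    rw [δ.2 h g]
    show (δ.1 h).1 1 + (δ.1 g).1 (1 * h) = _
    rw [one_mul, ← (δ.1 g).2 h 1, mul_one]⟩
  map_add' a b := rfl
  map_smul' c a := rfl

theorem BE_T_eq (p : ℕ) {G : Type} [Group G] (H : Subgroup G) {M : Type} [AddCommGroup M]
    [Module (ZMod p) M] (ρ : Representation (ZMod p) H M) (δ : Z1 p (coR p H ρ)) (g x : G) :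
    (δ.1 g).1 x = (δ.1 (x * g)).1 1 - (δ.1 x).1 1 := by
  have h1 : (δ.1 (x * g)).1 1 = (δ.1 x).1 1 + (δ.1 g).1 (1 * x) := by
    rw [δ.2 x g]
    rfl
  rw [h1, one_mul]
  abel

theorem BE_T_bij (p : ℕ) {G : Type} [Group G] (H : Subgroup G) {M : Type} [AddCommGroup M]
    [Module (ZMod p) M] (ρ : Representation (ZMod p) H M) : Function.Bijective (BE_T p H ρ) := by
  constructor
  · rw [← LinearMap.ker_eq_bot, LinearMap.ker_eq_bot']
    intro δ hδ
    have h1 : ∀ g, (δ.1 g).1 1 = 0 := fun g => congrFun (congrArg Subtype.val hδ) g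
    apply Subtype.ext
    funext g
    apply Subtype.ext
    funext x
    rw [BE_T_eq, h1, h1, sub_zero]
    rfl
  · rintro ⟨b, hb⟩
    have h0 := BE_B_one p H ρ hb
    refine ⟨⟨fun g => ⟨fun x => b (x * g) - b x, ?_⟩, ?_⟩, ?_⟩
    · intro h x
      show b (h * x * g) - b (h * x) = ρ h (b (x * g) - b x)
      rw [mul_assoc, hb h (x * g), hb h x, map_sub]
      abel
    · intro g g'
      apply Subtype.ext
      funext x
      show b (x * (g * g')) - b x = (b (x * g) - b x) + (b (x * g * g') - b (x * g))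
      rw [mul_assoc]
      abel
    · apply Subtype.ext
      funext g
      show b (1 * g) - b 1 = b g
      rw [h0, one_mul, sub_zero]

/-- restriction to `H` and to a transversal -/
def BE_R (p : ℕ) {G : Type} [Group G] (H : Subgroup G) {M : Type} [AddCommGroup M]
    [Module (ZMod p) M] (ρ : Representation (ZMod p) H M) (S : Set G) :
    BE_B p H ρ →ₗ[ZMod p] Z1 p ρ × ({s : S // ¬ s.1 = 1} → M) where
  toFun b := (⟨fun h => b.1 h, by
    intro h h'
    exact b.2 h h'⟩, fun s => b.1 s.1.1)
  map_add' a b := rfl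
  map_smul' c a := rfl

theorem BE_R_bij (p : ℕ) {G : Type} [Group G] (H : Subgroup G) {M : Type} [AddCommGroup M]
    [Module (ZMod p) M] (ρ : Representation (ZMod p) H M) (S : Set G)
    (hS : Subgroup.IsComplement (H : Set G) S) (h1 : (1 : G) ∈ S) :
    Function.Bijective (BE_R p H ρ S) := by
  classical
  constructor
  · rw [← LinearMap.ker_eq_bot, LinearMap.ker_eq_bot']
    intro b hb
    have e1 : ∀ h : H, b.1 h = 0 := fun h => congrFun (congrArg Subtype.val (congrArg Prod.fst hb)) h
    have e2 : ∀ s : {s : S // ¬ s.1 = 1}, b.1 s.1.1 = 0 := fun s => congrFun (congrArg Prod.snd hb) s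
    have e3 : ∀ s : S, b.1 s = 0 := by
      intro s
      by_cases hs : s.1 = 1
      · rw [hs]
        exact BE_B_one p H ρ b.2
      · exact e2 ⟨s, hs⟩
    apply Subtype.ext
    funext g
    have e4 := hS.equiv_fst_mul_equiv_snd g
    rw [← e4]
    have e5 := b.2 (hS.equiv g).1 (hS.equiv g).2
    rw [e5, e1, e3, map_zero, add_zero]
    rfl
  · rintro ⟨⟨c, hc⟩, v⟩
    have hc1 : c 1 = 0 := by
      have h2 := hc 1 1
      rw [mul_one, map_one, Module.End.one_apply] at h2
      exact left_eq_add.1 h2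
    obtain ⟨w, hw⟩ : ∃ w : S → M, w = fun s => if hs : s.1 = 1 then 0 else v ⟨s, hs⟩ := ⟨_, rfl⟩
    have hw1 : w ⟨1, h1⟩ = 0 := by
      rw [hw]
      exact dif_pos rfl
    have hw2 : ∀ (s : S) (hs : ¬ s.1 = 1), w s = v ⟨s, hs⟩ := by
      intro s hs
      rw [hw]
      exact dif_neg hs
    have hone : ∀ h : H, hS.equiv (h : G) = (h, ⟨1, h1⟩) := by
      intro h
      have h2 := hS.equiv_mul_left h 1
      rw [mul_one, hS.equiv_one H.one_mem h1] at h2
      rw [h2]
      exact Prod.ext (Subtype.ext (mul_one _)) rfl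
    obtain ⟨b, hb⟩ : ∃ b : G → M, b = fun g => c (hS.equiv g).1 + ρ (hS.equiv g).1 (w (hS.equiv g).2) :=
      ⟨_, rfl⟩
    have hbH : ∀ h : H, b h = c h := by
      intro h
      rw [hb]
      show c (hS.equiv h).1 + ρ (hS.equiv h).1 (w (hS.equiv h).2) = c h
      rw [hone, hw1, map_zero, add_zero]
    have hbB : b ∈ BE_B p H ρ := by
      intro h g
      rw [hbH, hb]
      show c (hS.equiv (h * g)).1 + ρ (hS.equiv (h * g)).1 (w (hS.equiv (h * g)).2) =
        c h + ρ h (c (hS.equiv g).1 + ρ (hS.equiv g).1 (w (hS.equiv g).2))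
      rw [hS.equiv_mul_left h g]
      show c (h * (hS.equiv g).1) + ρ (h * (hS.equiv g).1) (w (hS.equiv g).2) = _
      rw [hc, map_mul, map_add, Module.End.mul_apply, add_assoc]
    refine ⟨⟨b, hbB⟩, Prod.ext (Subtype.ext (funext hbH)) (funext fun s => ?_)⟩
    show b s.1.1 = v s
    rw [hb]
    have h3 : hS.equiv (s.1.1 : G) = (1, s.1) := by
      have h4 := hS.equiv.apply_symm_apply ((1 : H), s.1)
      have h5 : (hS.equiv.symm ((1 : H), s.1) : G) = s.1.1 := by
        rw [hS.equiv_symm_apply]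
        exact one_mul _
      rw [h5] at h4
      exact h4
    show c (hS.equiv s.1.1).1 + ρ (hS.equiv s.1.1).1 (w (hS.equiv s.1.1).2) = v s
    rw [h3]
    show c 1 + ρ 1 (w s.1) = v s
    rw [hc1, map_one, Module.End.one_apply, zero_add, hw2 s.1 s.2]

theorem BE_main (p : ℕ) [Fact p.Prime] {G : Type} [Group G] [Group.FG G] (H : Subgroup G)
    [H.FiniteIndex] {M : Type} [AddCommGroup M] [Module (ZMod p) M]
    [Module.Finite (ZMod p) M] (ρ : Representation (ZMod p) H M) :
    Module.finrank (ZMod p) (Z1 p (coR p H ρ)) =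
      Module.finrank (ZMod p) (Z1 p ρ) + (H.index - 1) * Module.finrank (ZMod p) M := by
  classical
  obtain ⟨S, hS, h1⟩ := H.exists_isComplement_right 1
  have e1 := (LinearEquiv.ofBijective _ (BE_T_bij p H ρ)).finrank_eq
  have e2 := (LinearEquiv.ofBijective _ (BE_R_bij p H ρ S hS h1)).finrank_eq
  have hfS : Finite S := hS.finite_right
  have := Fintype.ofFinite S
  have hH : Module.Finite (ZMod p) (Z1 p ρ) := Z1_fin p ρ
  have hcard : Fintype.card {s : S // ¬ s.1 = 1} = H.index - 1 := by
    rw [Fintype.card_subtype_compl, ← hS.card_right, Nat.card_eq_fintype_card]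
    congr 1
    rw [Fintype.card_eq_one_iff]
    exact ⟨⟨⟨1, h1⟩, rfl⟩, fun s => Subtype.ext (Subtype.ext s.2)⟩
  rw [e1, e2, Module.finrank_prod, Module.finrank_pi_fintype, Finset.sum_const, Finset.card_univ,
    hcard, smul_eq_mul]

end Pool.Agent.H93.GS

end S_BE

section S_BF

/-!
ROW BF (60 lines).  Trivial action: `Z1 p σ` is the space of homomorphisms `Additive H →+ Y`, `Y ≃ (Fin y → ZMod p)` (a basis), so `Z1 p σ ≃ (Fin y → (Additive H →+ ZMod p))`,
`finrank = y * finrank (Additive H →+ ZMod p)` (`Module.finrank_pi_fintype` or `finrank_pi`-like for `Fin y → V`; both sides are `0` if `V` is infinite dimensional and `y > 0`; the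
hypothesis `Group.FG H` makes it finite dimensional: the value on a finite generating set determines a homomorphism).
-/

set_option autoImplicit false

namespace Pool.Agent.H93.GS

theorem BF_fin (p : ℕ) [Fact p.Prime] (H : Type) [Group H] [Group.FG H] :
    Module.Finite (ZMod p) (Additive H →+ ZMod p) := by
  obtain ⟨X, hX, hXf⟩ := Group.fg_iff.1 (inferInstance : Group.FG H)
  have : Finite X := hXf
  let φ : (Additive H →+ ZMod p) →ₗ[ZMod p] (X → ZMod p) :=
    { toFun := fun u x => u (Additive.ofMul x.1)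
      map_add' := fun u v => rfl
      map_smul' := fun c u => rfl }
  refine Module.Finite.of_injective φ ?_
  rw [← LinearMap.ker_eq_bot, LinearMap.ker_eq_bot']
  intro u hu
  ext h
  have hmem : Additive.toMul h ∈ Subgroup.closure X := by
    rw [hX]
    exact Subgroup.mem_top _
  have key : ∀ g : H, g ∈ Subgroup.closure X → u (Additive.ofMul g) = 0 := by
    intro g hg
    induction hg using Subgroup.closure_induction with
    | mem x hx => exact congrFun hu ⟨x, hx⟩
    | one => exact map_zero u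
    | mul a b _ _ ha hb => rw [ofMul_mul, map_add, ha, hb, add_zero]
    | inv a _ ha => rw [ofMul_inv, map_neg, ha, neg_zero]
  exact key _ hmem

theorem BF_main (p : ℕ) [Fact p.Prime] {H : Type} [Group H] [Group.FG H] {Y : Type}
    [AddCommGroup Y] [Module (ZMod p) Y] [Module.Finite (ZMod p) Y]
    (σ : Representation (ZMod p) H Y) (hσ : ∀ g v, σ g v = v) :
    Module.finrank (ZMod p) (Z1 p σ) =
      Module.finrank (ZMod p) (Additive H →+ ZMod p) * Module.finrank (ZMod p) Y := by
  have hfin := BF_fin p H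
  let b := Module.finBasis (ZMod p) Y
  let e : Z1 p σ ≃ₗ[ZMod p] (Fin (Module.finrank (ZMod p) Y) → (Additive H →+ ZMod p)) :=
    { toFun := fun δ i =>
        { toFun := fun h => b.repr (δ.1 (Additive.toMul h)) i
          map_zero' := by
            have h1 := δ.2 1 1
            rw [hσ, mul_one] at h1
            have h2 : δ.1 1 = 0 := by
              have := h1
              rwa [left_eq_add] at this
            show b.repr (δ.1 (Additive.toMul 0)) i = 0
            rw [toMul_zero, h2]
            simp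
          map_add' := by
            intro x y
            show b.repr (δ.1 (Additive.toMul (x + y))) i = _
            rw [toMul_add, δ.2 _ _, hσ]
            simp }
      map_add' := by
        intro δ δ'
        funext i
        ext h
        simp
      map_smul' := by
        intro c δ
        funext i
        ext h
        simp
      invFun := fun v =>
        ⟨fun h => ∑ i, v i (Additive.ofMul h) • b i, by
          intro g h
          simp only [hσ]
          rw [← Finset.sum_add_distrib]
          apply Finset.sum_congr rfl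
          intro i _
          rw [ofMul_mul, map_add, add_smul]⟩
      left_inv := by
        intro δ
        apply Subtype.ext
        funext h
        show ∑ i, b.repr (δ.1 h) i • b i = δ.1 h
        exact b.sum_repr _
      right_inv := by
        intro v
        funext i
        ext h
        show b.repr (∑ j, v j (Additive.ofMul (Additive.toMul h)) • b j) i = v i h
        simp [Finsupp.single_apply] }
  rw [e.finrank_eq, Module.finrank_pi_fintype]
  simp [mul_comm]

end Pool.Agent.H93.GS

end S_BF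

section S_BG

/-!
ROW BG (80 lines).  The Golod-Shafarevich datum of a subgroup `H` of finite index `j` in `G = ⟨n generators | m relators⟩`, `d = dim Hom(H, ZMod p)`:  `(d, d - 1 + j (m - n + 1))`.
Given `M, ρ, M'` as in `GSD`: `Y = M ⧸ M'` with the trivial action `σ g v = v` (`Representation.trivial`, or `1`), `π = M'.mkQ`, `π (ρ h v) = π v` by the second hypothesis.  `q = finrank Y = finrank M - finrank M'`.
`CoI_surj` gives `Φ : CoI ρ → CoI σ`; `BD_main` for `coR ρ`, `coR σ`, `Φ` (`CoI_fin`, `CoI_finrank`):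
`(n - m) (j dim M - j q) + finrank Z1(coR σ) ≤ finrank Z1(coR ρ)`; `BE_main` twice and `BF_main` for `H`, `σ`:
`finrank Z1(coR σ) = d q + (j-1) q`, `finrank Z1(coR ρ) = finrank Z1(ρ) + (j-1) finrank M`.
So `finrank Z1(ρ) ≥ (n - m) j dim M' + d q + (j-1) q - (j-1)(q + dim M') = d dim M - (d - 1 + j (m-n+1)) dim M'` (`j ≥ 1`, cast `H.index - 1`).
`G` is finitely generated (`Group.fg_of_surjective`), `H` as well (`Subgroup.fg_of_index_ne_zero`).
-/

set_option autoImplicit false

namespace Pool.Agent.H93.GS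

theorem BG_main (p : ℕ) [Fact p.Prime] {n m : ℕ} {G : Type} [Group G]
    (f : FreeGroup (Fin n) →* G) (hf : Function.Surjective f)
    (rel : Fin m → FreeGroup (Fin n))
    (hk : f.ker = Subgroup.normalClosure (Set.range rel)) (H : Subgroup G) [H.FiniteIndex] :
    GSD p H (Module.finrank (ZMod p) (Additive H →+ ZMod p) : ℤ)
      ((Module.finrank (ZMod p) (Additive H →+ ZMod p) : ℤ) - 1 +
        (H.index : ℤ) * ((m : ℤ) - (n : ℤ) + 1)) := by
  intro M _ _ _ ρ M' h1 h2
  have hG : Group.FG G := Group.fg_of_surjective hf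
  have hH : Group.FG H := Subgroup.fg_of_index_ne_zero H
  obtain ⟨σ, hσ⟩ : ∃ σ : Representation (ZMod p) H (M ⧸ M'), ∀ g v, σ g v = v :=
    ⟨1, fun g v => rfl⟩
  have hc : ∀ (h : H) (v : M), M'.mkQ (ρ h v) = σ h (M'.mkQ v) := by
    intro h v
    rw [hσ, ← sub_eq_zero, ← map_sub, Submodule.mkQ_apply, Submodule.Quotient.mk_eq_zero]
    exact h2 h v
  obtain ⟨Φ, hΦs, hΦc⟩ := CoI_surj p H ρ σ M'.mkQ M'.mkQ_surjective hc
  have hX : Module.Finite (ZMod p) (CoI p H ρ) := CoI_fin p H ρ
  have hY : Module.Finite (ZMod p) (CoI p H σ) := CoI_fin p H σ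
  have a := BD_main p f hf rel hk (coR p H ρ) (coR p H σ) Φ hΦs hΦc
  have b1 : Module.finrank (ZMod p) (CoI p H ρ) = H.index * Module.finrank (ZMod p) M :=
    CoI_finrank p H ρ
  have b2 : Module.finrank (ZMod p) (CoI p H σ) =
      H.index * Module.finrank (ZMod p) (M ⧸ M') := CoI_finrank p H σ
  have b3 := BE_main p H ρ
  have b4 := BE_main p H σ
  have b5 := BF_main p σ hσ
  have b6 : Module.finrank (ZMod p) (M ⧸ M') + Module.finrank (ZMod p) M' =
      Module.finrank (ZMod p) M := Submodule.finrank_quotient_add_finrank M'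
  obtain ⟨j, hj⟩ : ∃ j, H.index = j + 1 :=
    Nat.exists_eq_succ_of_ne_zero Subgroup.FiniteIndex.index_ne_zero
  rw [hj, Nat.add_sub_cancel] at b3 b4
  rw [hj] at b1 b2
  rw [b1, b2, b3, b4, b5, ← b6] at a
  rw [← b6, hj]
  push_cast at a ⊢
  linarith

end Pool.Agent.H93.GS

end S_BG
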